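import Mathlib

set_option autoImplicit false

/-! Alternating signs of the odd real points of a symmetric finite multiset, and blocks of close points. -/

open scoped BigOperators ComplexConjugate

namespace Pool.Agent.H4.SG

open Classical in
/-- the number of points (with multiplicity) with real part at most `x` -/
noncomputable def cnl (Z : Finset ℂ) (m : ℂ → ℕ) (x : ℝ) : ℕ := ∑ w ∈ Z.filter (fun w => w.re ≤ x), m w

/-- the parity of the number of points up to `x` -/
noncomputable def eps (Z : Finset ℂ) (m : ℂ → ℕ) (x : ℝ) : ℝ := (-1) ^ cnl Z m x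

open Classical in
/-- the sign of the odd real points -/
noncomputable def es (Z : Finset ℂ) (m : ℂ → ℕ) (z : ℂ) : ℝ := if z.im = 0 ∧ Odd (m z) then eps Z m z.re else 0

lemma eps_or (Z : Finset ℂ) (m : ℂ → ℕ) (x : ℝ) : eps Z m x = 1 ∨ eps Z m x = -1 := neg_one_pow_eq_or ℝ _

lemma es_abs (Z : Finset ℂ) (m : ℂ → ℕ) (z : ℂ) : |es Z m z| ≤ 1 := by
  unfold es
  split_ifs
  · rcases eps_or Z m z.re with h | h <;> rw [h] <;> norm_num
  · norm_num

lemma ofReal_of_im {z : ℂ} (h : z.im = 0) : ((z.re : ℝ) : ℂ) = z := Complex.ext (by simp) (by simp [h])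

/-- consecutive odd real points have opposite signs -/
theorem eps_step {Z : Finset ℂ} {m : ℂ → ℕ} (hZ : ∀ z ∈ Z, conj z ∈ Z) (hmc : ∀ z ∈ Z, m (conj z) = m z)
    {x : ℝ} {y : ℂ} (hy : y ∈ Z) (hy0 : y.im = 0) (hyo : Odd (m y)) (hxy : x < y.re)
    (hb : ∀ w ∈ Z, w.im = 0 → x < w.re → w.re < y.re → Even (m w)) : eps Z m y.re = - eps Z m x := by
  classical
  have h1 : cnl Z m y.re = cnl Z m x + ∑ w ∈ Z.filter (fun w => x < w.re ∧ w.re ≤ y.re), m w := by
    unfold cnl
    rw [← Finset.sum_union]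
    · refine Finset.sum_congr ?_ fun _ _ => rfl
      ext w
      simp only [Finset.mem_filter, Finset.mem_union]
      constructor
      · rintro ⟨g1, g2⟩
        rcases le_or_gt w.re x with g3 | g3
        · exact Or.inl ⟨g1, g3⟩
        · exact Or.inr ⟨g1, g3, g2⟩
      · rintro (⟨g1, g2⟩ | ⟨g1, g2, g3⟩)
        · exact ⟨g1, g2.trans hxy.le⟩
        · exact ⟨g1, g3⟩
    · rw [Finset.disjoint_left]
      intro w hw hw2
      rw [Finset.mem_filter] at hw hw2
      linarith [hw.2, hw2.2.1]
  have h2 : Odd (∑ w ∈ Z.filter (fun w => x < w.re ∧ w.re ≤ y.re), m w) := by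
    rw [← ZMod.natCast_eq_one_iff_odd]
    push_cast
    rw [← Finset.sum_filter_add_sum_filter_not _ (fun w : ℂ => w.im = 0)]
    have h3 : ∑ w ∈ (Z.filter (fun w => x < w.re ∧ w.re ≤ y.re)).filter (fun w : ℂ => ¬ w.im = 0), ((m w : ℕ) : ZMod 2) = 0 := by
      refine Finset.sum_involution (fun w _ => conj w) ?_ ?_ ?_ ?_
      · intro w hw
        rw [Finset.mem_filter, Finset.mem_filter] at hw
        rw [hmc w hw.1.1, ← two_mul]
        have : (2 : ZMod 2) = 0 := by decide
        rw [this, zero_mul]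
      · intro w hw _ h
        rw [Finset.mem_filter] at hw
        exact hw.2 (Complex.conj_eq_iff_im.1 h)
      · intro w hw
        rw [Finset.mem_filter, Finset.mem_filter] at hw ⊢
        refine ⟨⟨hZ w hw.1.1, by simpa using hw.1.2⟩, ?_⟩
        rw [Complex.conj_im]
        intro h
        exact hw.2 (neg_eq_zero.1 h)
      · intro w _
        exact Complex.conj_conj w
    have h4 : ∑ w ∈ (Z.filter (fun w => x < w.re ∧ w.re ≤ y.re)).filter (fun w : ℂ => w.im = 0), ((m w : ℕ) : ZMod 2) = 1 := by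
      rw [Finset.sum_eq_single y]
      · exact (ZMod.natCast_eq_one_iff_odd).2 hyo
      · intro w hw hwy
        rw [Finset.mem_filter, Finset.mem_filter] at hw
        obtain ⟨⟨g1, g2, g3⟩, g4⟩ := hw
        have g5 : w.re < y.re := lt_of_le_of_ne g3 fun h => hwy (Complex.ext h (g4.trans hy0.symm))
        exact (ZMod.natCast_eq_zero_iff_even).2 (hb w g1 g4 g2 g5)
      · intro h
        exact absurd (Finset.mem_filter.2 ⟨Finset.mem_filter.2 ⟨hy, hxy, le_rfl⟩, hy0⟩) h
    rw [h3, h4, add_zero]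
  unfold eps
  rw [h1, pow_add, h2.neg_one_pow, mul_neg_one]

/-- alternating sums -/
theorem alt_sum (R : Finset ℝ) (e : ℝ → ℝ)
    (h : ∀ x ∈ R, ∀ y ∈ R, x < y → (∀ w ∈ R, ¬ (x < w ∧ w < y)) → e y = - e x) :
    (∑ x ∈ R, e x = 0) ∨ ∃ x ∈ R, (∀ y ∈ R, y ≤ x) ∧ ∑ y ∈ R, e y = e x := by
  induction R using Finset.induction_on_max with
  | empty => left; simp
  | insert a R ha ih =>
    have hn : a ∉ R := fun hm => lt_irrefl a (ha a hm)
    rw [Finset.sum_insert hn]
    rcases ih (fun x hx y hy hxy hw => h x (Finset.mem_insert_of_mem hx) y (Finset.mem_insert_of_mem hy) hxy fun w hwm => by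
      rcases Finset.mem_insert.1 hwm with h1 | h1
      · rintro ⟨-, h2⟩
        rw [h1] at h2
        exact lt_asymm h2 (ha y hy)
      · exact hw w h1) with h1 | ⟨x, hx, hmax, h1⟩
    · right
      refine ⟨a, Finset.mem_insert_self _ _, fun y hy => ?_, by rw [h1, add_zero]⟩
      rcases Finset.mem_insert.1 hy with h2 | h2
      · exact h2.le
      · exact (ha y h2).le
    · left
      have h2 := h x (Finset.mem_insert_of_mem hx) a (Finset.mem_insert_self _ _) (ha x hx) fun w hwm => by
        rcases Finset.mem_insert.1 hwm with h3 | h3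
        · rintro ⟨-, h4⟩
          rw [h3] at h4
          exact lt_irrefl _ h4
        · rintro ⟨h4, -⟩
          exact absurd h4 (not_lt.2 (hmax w h3))
      rw [h1, h2]
      ring

open Classical in
/-- the sum of all the signs -/
theorem es_sum {Z : Finset ℂ} {m : ℂ → ℕ} (hZ : ∀ z ∈ Z, conj z ∈ Z) (hmc : ∀ z ∈ Z, m (conj z) = m z)
    (Pa : Finset ℂ) (hPa : Pa ⊆ Z) (hconv : ∀ x ∈ Pa, ∀ y ∈ Pa, ∀ w ∈ Z, w.im = 0 → x.re ≤ w.re → w.re ≤ y.re → w ∈ Pa) :
    |∑ z ∈ Pa, es Z m z| ≤ 1 := by
  set O := Pa.filter (fun z => z.im = 0 ∧ Odd (m z)) with hO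
  have h1 : ∑ z ∈ Pa, es Z m z = ∑ z ∈ O, eps Z m z.re := by
    rw [hO, Finset.sum_filter]
    exact Finset.sum_congr rfl fun z _ => rfl
  have h2 : ∑ z ∈ O, eps Z m z.re = ∑ x ∈ O.image (fun z => z.re), eps Z m x := by
    rw [Finset.sum_image]
    intro z hz w hw hzw
    have hz' := (Finset.mem_filter.1 (Finset.mem_coe.1 hz)).2.1
    have hw' := (Finset.mem_filter.1 (Finset.mem_coe.1 hw)).2.1
    exact Complex.ext hzw (hz'.trans hw'.symm)
  rw [h1, h2]
  have hstep : ∀ x ∈ O.image (fun z => z.re), ∀ y ∈ O.image (fun z => z.re), x < y →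
      (∀ w ∈ O.image (fun z => z.re), ¬ (x < w ∧ w < y)) → eps Z m y = - eps Z m x := by
    intro x hx y hy hxy hw
    obtain ⟨u, hu, rfl⟩ := Finset.mem_image.1 hx
    obtain ⟨v, hv, rfl⟩ := Finset.mem_image.1 hy
    rw [hO, Finset.mem_filter] at hu hv
    refine eps_step hZ hmc (hPa hv.1) hv.2.1 hv.2.2 hxy fun w hwZ hw0 g1 g2 => ?_
    by_contra hodd
    rw [Nat.not_even_iff_odd] at hodd
    have hwP := hconv u hu.1 v hv.1 w hwZ hw0 g1.le g2.le
    exact hw w.re (Finset.mem_image.2 ⟨w, Finset.mem_filter.2 ⟨hwP, hw0, hodd⟩, rfl⟩) ⟨g1, g2⟩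
  rcases alt_sum (O.image (fun z => z.re)) (eps Z m) hstep with h3 | ⟨x, -, -, h3⟩
  · rw [h3]; norm_num
  · rw [h3]
    rcases eps_or Z m x with h | h <;> rw [h] <;> norm_num

/-- every point of the list has a close neighbour (the first one if not `b`) -/
def Gd (R : ℂ → ℂ → Prop) : Prop → List ℂ → Prop
  | _, [] => True
  | b, [_] => b
  | b, x :: y :: l => (b ∨ R x y) ∧ Gd R (R x y) (y :: l)

/-- blocks of two or three consecutive close points -/
theorem blocks (R : ℂ → ℂ → Prop) : ∀ n : ℕ, ∀ l : List ℂ, l.length = n → Gd R False l → ∃ bs : List (List ℂ), bs.flatten = l ∧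
    ∀ b ∈ bs, (∃ x y, b = [x, y] ∧ R x y) ∨ ∃ x y z, b = [x, y, z] ∧ R x y ∧ R y z := by
  intro n
  induction n using Nat.strong_induction_on with
  | _ n ih =>
    intro l hn hG
    match l, hn, hG with
    | [], _, _ => exact ⟨[], rfl, by simp⟩
    | [x], _, h => exact absurd h (by simp [Gd])
    | [x, y], _, h =>
      have h1 : R x y := by
        have := h.1
        simpa using this
      exact ⟨[[x, y]], rfl, fun b hb => by
        rw [List.mem_singleton] at hb
        exact Or.inl ⟨x, y, hb, h1⟩⟩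
    | [x, y, z], _, h =>
      have h1 : R x y := by
        have := h.1
        simpa using this
      have h2 : R y z := h.2.2
      exact ⟨[[x, y, z]], rfl, fun b hb => by
        rw [List.mem_singleton] at hb
        exact Or.inr ⟨x, y, z, hb, h1, h2⟩⟩
    | x :: y :: z :: u :: l, hn, h =>
      have h1 : R x y := by
        have := h.1
        simpa using this
      have h2 : Gd R (R y z) (z :: u :: l) := h.2.2
      by_cases hzu : R z u
      · have h3 : Gd R False (z :: u :: l) := ⟨Or.inr hzu, h2.2⟩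
        obtain ⟨bs, hb1, hb2⟩ := ih (z :: u :: l).length (by rw [← hn]; simp) _ rfl h3
        refine ⟨[x, y] :: bs, by rw [List.flatten_cons, hb1]; rfl, fun b hb => ?_⟩
        rcases List.mem_cons.1 hb with h4 | h4
        · exact Or.inl ⟨x, y, h4, h1⟩
        · exact hb2 b h4
      · have h3 : Gd R False (u :: l) := by
          have := h2.2
          have e : R z u = False := eq_false hzu
          rwa [e] at this
        have h5 : R y z := h2.1.resolve_right hzu
        obtain ⟨bs, hb1, hb2⟩ := ih (u :: l).length (by rw [← hn]; simp) _ rfl h3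
        refine ⟨[x, y, z] :: bs, by rw [List.flatten_cons, hb1]; rfl, fun b hb => ?_⟩
        rcases List.mem_cons.1 hb with h4 | h4
        · exact Or.inr ⟨x, y, z, h4, h1, h5⟩
        · exact hb2 b h4

/-- in a sorted list every point has a close neighbour if it has a close point -/
theorem gd_of {d : ℝ} : ∀ (l : List ℂ) (b : Prop), l.Pairwise (fun x y => x.re ≤ y.re) → l.Nodup →
    (∀ z ∈ l, (∃ w ∈ l, w ≠ z ∧ |z.re - w.re| < d) ∨ (b ∧ l.head? = some z)) → Gd (fun x y => y.re - x.re < d) b l := by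
  intro l
  induction l with
  | nil => intro b _ _ _; exact trivial
  | cons x l ih =>
    intro b hs hn h
    cases l with
    | nil =>
      rcases h x (List.mem_singleton_self x) with ⟨w, hw, hwx, -⟩ | ⟨hb, -⟩
      · exact absurd (List.mem_singleton.1 hw) hwx
      · exact hb
    | cons y l =>
      rw [List.pairwise_cons] at hs
      rw [List.nodup_cons] at hn
      refine ⟨?_, ih _ hs.2 hn.2 ?_⟩
      · rcases h x (List.mem_cons_self) with ⟨w, hw, hwx, hd⟩ | ⟨hb, -⟩
        · right
          have hw' : w ∈ y :: l := by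
            rcases List.mem_cons.1 hw with h1 | h1
            · exact absurd h1 hwx
            · exact h1
          have h2 : y.re ≤ w.re := by
            rcases List.mem_cons.1 hw' with h1 | h1
            · rw [h1]
            · exact (List.pairwise_cons.1 hs.2).1 w h1
          rw [abs_lt] at hd
          linarith [hd.1]
        · exact Or.inl hb
      · intro z hz
        rcases h z (List.mem_cons_of_mem _ hz) with ⟨w, hw, hwz, hd⟩ | ⟨-, h1⟩
        · rcases List.mem_cons.1 hw with h1 | h1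
          · -- the close point is `x`
            subst h1
            by_cases hzy : z = y
            · right
              refine ⟨?_, by rw [hzy]; rfl⟩
              rw [← hzy]
              exact (abs_lt.1 hd).2
            · left
              refine ⟨y, List.mem_cons_self, fun h2 => hzy h2.symm, ?_⟩
              have hzl : z ∈ l := by
                rcases List.mem_cons.1 hz with h2 | h2
                · exact absurd h2 hzy
                · exact h2
              have h2 := (List.pairwise_cons.1 hs.2).1 z hzl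
              have h3 := hs.1 y List.mem_cons_self
              rw [abs_lt] at hd ⊢
              constructor <;> linarith [hd.1, hd.2]
          · exact Or.inl ⟨w, h1, hwz, hd⟩
        · exfalso
          rw [List.head?_cons, Option.some.injEq] at h1
          rw [h1] at hn
          exact hn.1 hz

/-- consecutive close points of a set -/
def Cons (S : Finset ℂ) (d : ℝ) (x y : ℂ) : Prop := x ∈ S ∧ y ∈ S ∧ x ≠ y ∧ x.re ≤ y.re ∧ y.re - x.re < d ∧
  ∀ w ∈ S, ¬ (x.re < w.re ∧ w.re < y.re)

open Classical in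
/-- a partition into blocks of two or three consecutive close points -/
theorem clusters (S : Finset ℂ) (d : ℝ) (h : ∀ z ∈ S, ∃ w ∈ S, w ≠ z ∧ |z.re - w.re| < d) :
    ∃ ρ : ℂ → ℂ, (∀ z ∈ S, ρ z ∈ S) ∧ ∀ z ∈ S, ∃ x y : ℂ, Cons S d x y ∧
      (S.filter (fun w => ρ w = ρ z) = {x, y} ∨ ∃ u, Cons S d y u ∧ x ≠ u ∧ S.filter (fun w => ρ w = ρ z) = {x, y, u}) := by
  -- the sorted list
  obtain ⟨l, hl, hn, hs⟩ : ∃ l : List ℂ, (∀ z, z ∈ l ↔ z ∈ S) ∧ l.Nodup ∧ l.Pairwise (fun x y => x.re ≤ y.re) := by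
    refine ⟨S.toList.mergeSort (fun x y => decide (x.re ≤ y.re)), fun z => ?_, ?_, ?_⟩
    · rw [List.mem_mergeSort, Finset.mem_toList]
    · exact (List.mergeSort_perm _ _).nodup_iff.2 (Finset.nodup_toList S)
    · have := List.pairwise_mergeSort (le := fun x y : ℂ => decide (x.re ≤ y.re)) (by
        intro a b c h1 h2
        simp only [decide_eq_true_eq] at *
        exact h1.trans h2) (by
        intro a b
        simp only [Bool.or_eq_true, decide_eq_true_eq]
        exact le_total _ _) S.toList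
      refine this.imp fun {a b} hab => ?_
      simpa using hab
  obtain ⟨bs, hb1, hb2⟩ := blocks (fun x y => y.re - x.re < d) _ l rfl (gd_of l False hs hn fun z hz => by
    obtain ⟨w, hw, h1, h2⟩ := h z ((hl z).1 hz)
    exact Or.inl ⟨w, (hl w).2 hw, h1, h2⟩)
  rw [← hb1, List.nodup_flatten] at hn
  obtain ⟨hn1, hn2⟩ := hn
  have hne : ∀ b ∈ bs, b ≠ [] := by
    intro b hb
    rcases hb2 b hb with ⟨x, y, rfl, -⟩ | ⟨x, y, z, rfl, -⟩ <;> simp
  have huniq : ∀ b ∈ bs, ∀ c ∈ bs, ∀ z, z ∈ b → z ∈ c → b = c := by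
    intro b hb c hc z hzb hzc
    by_contra hne'
    have hsy : Std.Symm (List.Disjoint (α := ℂ)) := ⟨fun _ _ h => List.Disjoint.symm h⟩
    have := hn2.forall hb hc hne'
    exact this hzb hzc
  have hex : ∀ z ∈ S, ∃ b ∈ bs, z ∈ b := by
    intro z hz
    rw [← hl, ← hb1, List.mem_flatten] at hz
    exact hz
  choose! B hB1 hB2 using hex
  -- adjacency
  have hadj : ∀ x y : ℂ, [x, y] <:+: l → x ≠ y → y.re - x.re < d → Cons S d x y := by
    intro x y hinf hxy hd
    obtain ⟨s, t, hst⟩ := hinf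
    rw [← hst] at hs
    rw [List.append_assoc, List.pairwise_append] at hs
    obtain ⟨-, hs2, hs3⟩ := hs
    have hxyt : ([x, y] ++ t : List ℂ) = x :: y :: t := rfl
    rw [hxyt, List.pairwise_cons, List.pairwise_cons] at hs2
    have hx : x ∈ l := by rw [← hst]; simp
    have hy : y ∈ l := by rw [← hst]; simp
    refine ⟨(hl x).1 hx, (hl y).1 hy, hxy, hs2.1 y List.mem_cons_self, hd, fun w hw hbt => ?_⟩
    rw [← hl, ← hst, List.append_assoc, List.mem_append, List.mem_append] at hw
    rcases hw with h1 | h1 | h1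
    · have := hs3 w h1 x (by simp)
      linarith [hbt.1]
    · rw [List.mem_cons, List.mem_singleton] at h1
      rcases h1 with h1 | h1
      · rw [h1] at hbt; exact lt_irrefl _ hbt.1
      · rw [h1] at hbt; exact lt_irrefl _ hbt.2
    · have := hs2.2.1 w h1
      linarith [hbt.2]
  have hinf : ∀ b ∈ bs, b <:+: l := fun b hb => by rw [← hb1]; exact List.infix_of_mem_flatten hb
  set ρ : ℂ → ℂ := fun z => (B z).headD 0 with hρ
  have hhead : ∀ z ∈ S, ρ z ∈ B z := by
    intro z hz
    have h1 := hne _ (hB1 z hz)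
    rw [hρ]
    simp only
    cases hBz : B z with
    | nil => exact absurd hBz h1
    | cons a t => simp
  have hBS : ∀ z ∈ S, ∀ w ∈ B z, w ∈ S := by
    intro z hz w hw
    rw [← hl, ← hb1, List.mem_flatten]
    exact ⟨B z, hB1 z hz, hw⟩
  have hfib : ∀ z ∈ S, ∀ w, w ∈ S.filter (fun w => ρ w = ρ z) ↔ w ∈ B z := by
    intro z hz w
    rw [Finset.mem_filter]
    constructor
    · rintro ⟨hw, hwz⟩
      have h1 := hhead w hw
      rw [hwz] at h1
      have h2 := huniq _ (hB1 w hw) _ (hB1 z hz) _ h1 (hhead z hz)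
      rw [← h2]
      exact hB2 w hw
    · intro hw
      have hwS := hBS z hz w hw
      have h2 := huniq _ (hB1 w hwS) _ (hB1 z hz) w (hB2 w hwS) hw
      refine ⟨hwS, ?_⟩
      rw [hρ]
      simp only
      rw [h2]
  refine ⟨ρ, fun z hz => hBS z hz _ (hhead z hz), fun z hz => ?_⟩
  have hnd := hn1 _ (hB1 z hz)
  rcases hb2 _ (hB1 z hz) with ⟨x, y, hxy, hR⟩ | ⟨x, y, u, hxyu, hR1, hR2⟩
  · rw [hxy] at hnd
    have hne1 : x ≠ y := by
      intro h1
      rw [h1] at hnd
      simp at hnd
    refine ⟨x, y, hadj x y (by rw [← hxy]; exact hinf _ (hB1 z hz)) hne1 hR, Or.inl ?_⟩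
    ext w
    rw [hfib z hz, hxy]
    simp
  · rw [hxyu] at hnd
    simp only [List.nodup_cons, List.mem_cons, List.not_mem_nil, or_false, not_or, List.nodup_nil, and_true, not_false_eq_true] at hnd
    obtain ⟨⟨hne1, hne2⟩, hne3⟩ := hnd
    have hi := hinf _ (hB1 z hz)
    rw [hxyu] at hi
    have hi1 : [x, y] <:+: l := List.IsInfix.trans ⟨[], [u], rfl⟩ hi
    have hi2 : [y, u] <:+: l := List.IsInfix.trans ⟨[x], [], rfl⟩ hi
    refine ⟨x, y, hadj x y hi1 hne1 hR1, Or.inr ⟨u, hadj y u hi2 hne3 hR2, hne2, ?_⟩⟩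
    ext w
    rw [hfib z hz, hxyu]
    simp

end Pool.Agent.H4.SG
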