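import Pool.Graph.R_pool_sql_team_seeded_3997aac3.Q97.UM.Stm11
import Pool.Graph.R_pool_sql_team_seeded_3997aac3.Q275.UM.ISOW
import Pool.Agent.H4.SG.Al

/-! # The counting inequality for isolated points with a given parity of the index (after Q275/UM/ISOW.lean) -/

set_option autoImplicit false

open scoped BigOperators ComplexConjugate

namespace Pool.Agent.H4.SG

open H370 TH803UC TH803CL
open Pool.Agent.Q275.UM

open Classical in
/-- a point which is not an odd real point has weight at least two -/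
lemma cw_two_of_es {Z : Finset ℂ} {m : ℂ → ℕ} (hm1 : ∀ z ∈ Z, 1 ≤ m z) {z : ℂ} (hz : z ∈ Z) (h : ¬ (z.im = 0 ∧ Odd (m z))) :
    2 ≤ cw m z := by
  refine cw_two_of_ne hm1 hz fun h1 => h ?_
  rw [cw_nat] at h1
  have h2 : (if z.im = 0 then m z else 2 * m z) = 1 := by exact_mod_cast h1
  split_ifs at h2 with h3
  · exact ⟨h3, by rw [h2]; exact odd_one⟩
  · omega

lemma es_of {Z : Finset ℂ} {m : ℂ → ℕ} {z : ℂ} (h : z.im = 0 ∧ Odd (m z)) : es Z m z = eps Z m z.re := by
  unfold es
  rw [if_pos h]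

lemma es_not {Z : Finset ℂ} {m : ℂ → ℕ} {z : ℂ} (h : ¬ (z.im = 0 ∧ Odd (m z))) : es Z m z = 0 := by
  unfold es
  rw [if_neg h]

open Classical in
/-- the inequality for the isolated points whose index has a given parity -/
theorem t_ISOS (E : Type) [NormedAddCommGroup E] [InnerProductSpace ℂ E] (φ : ℂ → ℂ) (k : ℂ → E)
    (hk : ∀ z w, inner ℂ (k z) (k w) = φ (w - conj z)) (hev : ∀ z, φ (-z) = φ z) (h0 : φ 0 = 1) (Z : Finset ℂ) (m : ℂ → ℕ)
    (hZ : ∀ z ∈ Z, conj z ∈ Z) (hm1 : ∀ z ∈ Z, 1 ≤ m z) (hmc : ∀ z ∈ Z, m (conj z) = m z) (ω : ℂ → ℂ)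
    (hω : ∀ z, ω (conj z) = conj (ω z)) (a far : ℂ → Prop) (ha : ∀ z, a (conj z) ↔ a z) (hfar : ∀ z, far z → z.im ≠ 0)
    (hconv : ∀ x y w : ℂ, a x → a y → x.re ≤ w.re → w.re ≤ y.re → a w)
    (d η M : ℝ) (hd : 0 < d) (hη : 0 ≤ η) (hM : 1 ≤ M) (hφ : ∀ u : ℂ, ‖u‖ ≤ 6 * d → ‖φ u - 1‖ ≤ η)
    (hωM : ∀ z ∈ Z, a z → |z.im| < d → ‖ω z‖ ≤ M) (τ : ℝ) (hτ : τ = 1 ∨ τ = -1) :
    2 * ∑ z ∈ Z.filter a, (m z : ℝ) -
      2 * ((Z.filter (fun z => a z ∧ z.im = 0 ∧ m z = 1 ∧ (∀ w ∈ Z, a w → w ≠ z → d ≤ ‖z - w‖) ∧ eps Z m z.re = τ)).card : ℝ) ≤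
    (∑ z ∈ Z, ∑ w ∈ Z, (m z : ℂ) * (m w : ℂ) * (ω z * ω w * φ (z - w)) ^ 2).re +
    ∑ z ∈ Z.filter (fun z => ¬ a z ∧ ¬ far z), 4 * (m z : ℝ) * (‖ω z‖ ^ 2 * (‖φ (z - conj z)‖ + 1)) +
    ∑ z ∈ Z.filter (fun z => ¬ a z ∧ far z), (m z : ℝ) * (8 * ‖ω z‖ ^ 2 + 4) +
    ∑ z ∈ Z.filter a, (m z : ℝ) * (8 * ‖1 - ω z‖ * (1 + ‖ω z‖) + 32 * M ^ 2 * (η + ‖1 - ω z‖)) + 1 := by
  set K : ℂ → ℂ → ℂ := fun z w => ω z * ω w * φ (z - w) with hK
  have hkk : ∀ z w, inner ℂ (ω z • k z) (ω w • k w) = K ((starRingEnd ℂ) z) w := by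
    intro z w
    simp only [hK]
    rw [inner_smul_left, inner_smul_right, hk, hω, ← hev (w - (starRingEnd ℂ) z), neg_sub]
    ring
  have hsym : ∀ z w, K z w = K w z := by
    intro z w
    simp only [hK]
    rw [← hev (z - w), neg_sub]
    ring
  have hKd : ∀ z, K z z = ω z ^ 2 := by
    intro z
    simp only [hK]
    rw [sub_self, h0]; ring
  have hKc : ∀ z, (K ((starRingEnd ℂ) z) ((starRingEnd ℂ) z)).re = (K z z).re := by
    intro z
    rw [hKd, hKd, hω, ← map_pow, Complex.conj_re]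
  have hωn : ∀ z, ‖ω ((starRingEnd ℂ) z)‖ = ‖ω z‖ := fun z => by rw [hω, RCLike.norm_conj]
  have hω1 : ∀ z, ‖1 - ω ((starRingEnd ℂ) z)‖ = ‖1 - ω z‖ := by
    intro z
    have h : 1 - ω ((starRingEnd ℂ) z) = (starRingEnd ℂ) (1 - ω z) := by
      rw [hω, map_sub, map_one]
    rw [h, RCLike.norm_conj]
  set P := Z.filter (fun z => 0 ≤ z.im) with hP
  set Pa := P.filter a with hPa
  have hPm : ∀ z ∈ P, z ∈ Z ∧ 0 ≤ z.im := fun z hz => by rwa [hP, Finset.mem_filter] at hz
  have hPam : ∀ z ∈ Pa, z ∈ P ∧ a z := fun z hz => Finset.mem_filter.1 hz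
  set S := Pa.filter (fun z => |z.im| < d ∧ ∃ w ∈ Pa, w ≠ z ∧ |w.im| < d ∧ ‖z - w‖ < d) with hS
  have hSm : ∀ z ∈ S, z ∈ Pa ∧ |z.im| < d ∧ ∃ w ∈ Pa, w ≠ z ∧ |w.im| < d ∧ ‖z - w‖ < d :=
    fun z hz => Finset.mem_filter.1 hz
  have hSmem : ∀ z ∈ Pa, |z.im| < d → ∀ w ∈ Pa, w ≠ z → |w.im| < d → ‖z - w‖ < d → z ∈ S := fun z hz h1 w hw h2 h3 h4 =>
    Finset.mem_filter.2 ⟨hz, h1, w, hw, h2, h3, h4⟩
  obtain ⟨ρ, hρS, hρ3⟩ := clusters S d (by
    intro z hz
    obtain ⟨h1, h2, w, hw, hwz, hwi, hwd⟩ := hSm z hz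
    refine ⟨w, hSmem w hw hwi z h1 (Ne.symm hwz) h2 (by rwa [norm_sub_rev]), hwz, ?_⟩
    rw [← Complex.sub_re]
    exact (Complex.abs_re_le_norm _).trans_lt hwd)
  have hfibS : ∀ z ∈ S, ∀ w ∈ S, ρ w = ρ z → ‖z - w‖ < 4 * d := by
    intro z hz w hw hwz
    have hzf : z ∈ S.filter (fun w => ρ w = ρ z) := Finset.mem_filter.2 ⟨hz, rfl⟩
    have hwf : w ∈ S.filter (fun w => ρ w = ρ z) := Finset.mem_filter.2 ⟨hw, hwz⟩
    have him : ∀ z ∈ S, 0 ≤ z.im ∧ z.im < d := by
      intro z hz
      obtain ⟨h1, h2, -⟩ := hSm z hz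
      exact ⟨(hPm z (hPam z h1).1).2, (abs_lt.1 h2).2⟩
    have hre : |z.re - w.re| < 2 * d := by
      obtain ⟨x, y, ⟨-, -, -, g1, g2, -⟩, hfib | ⟨u, ⟨-, -, -, g3, g4, -⟩, -, hfib⟩⟩ := hρ3 z hz
      · rw [hfib] at hzf hwf
        simp only [Finset.mem_insert, Finset.mem_singleton] at hzf hwf
        rw [abs_lt]
        rcases hzf with rfl | rfl <;> rcases hwf with rfl | rfl <;> constructor <;> linarith
      · rw [hfib] at hzf hwf
        simp only [Finset.mem_insert, Finset.mem_singleton] at hzf hwf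
        rw [abs_lt]
        rcases hzf with rfl | rfl | rfl <;> rcases hwf with rfl | rfl | rfl <;> constructor <;> linarith
    have h1 := him z hz
    have h2 := him w hw
    have h3 := Complex.norm_le_abs_re_add_abs_im (z - w)
    rw [Complex.sub_re, Complex.sub_im] at h3
    have h4 : |z.im - w.im| < d := by rw [abs_lt]; constructor <;> linarith
    linarith
  set π : ℂ → ℂ := fun z => if z ∈ S then ρ z else z with hπ
  have hπS : ∀ z ∈ S, π z = ρ z := fun z hz => by simp only [hπ]; rw [if_pos hz]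
  have hπN : ∀ z, z ∉ S → π z = z := fun z hz => by simp only [hπ]; rw [if_neg hz]
  have hclose : ∀ z w, π z = π w → z = w ∨ (z ∈ S ∧ w ∈ S ∧ ‖z - w‖ < 4 * d) := by
    intro z w h
    by_cases hz : z ∈ S
    · by_cases hw : w ∈ S
      · right
        rw [hπS z hz, hπS w hw] at h
        exact ⟨hz, hw, hfibS z hz w hw h.symm⟩
      · exfalso
        rw [hπS z hz, hπN w hw] at h
        exact hw (h ▸ hρS z hz)
    · by_cases hw : w ∈ S
      · exfalso
        rw [hπN z hz, hπS w hw] at h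
        exact hz (h ▸ hρS w hw)
      · left
        rwa [hπN z hz, hπN w hw] at h
  have him2 : ∀ z : ℂ, ‖(starRingEnd ℂ) z - z‖ = 2 * |z.im| := by
    intro z
    have e1 : (starRingEnd ℂ) z - z = ((-(2 * z.im) : ℝ) : ℂ) * Complex.I := by
      apply Complex.ext
      · simp
      · simp; ring
    rw [e1, norm_mul, Complex.norm_I, mul_one, Complex.norm_real, Real.norm_eq_abs, abs_neg,
      abs_mul, abs_of_pos (by norm_num : (0 : ℝ) < 2)]
  set W : ℂ → ℝ := fun b => ∑ z ∈ Pa.filter (fun z => π z = b), cw m z with hW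
  set κ : ℂ → ℝ := fun b => if W b = 1 then 1 else 2 with hκ
  have hκ1 : ∀ b, 0 ≤ κ b ∧ κ b ≤ 2 := by
    intro b; simp only [hκ]; split_ifs <;> norm_num
  have hT := trace_cl K (fun z => ω z • k z) hkk hsym Z hZ m hmc hm1 a far π κ W hκ1
    (fun b => rfl)
  rw [← hP, ← hPa] at hT
  set Err : ℂ → ℝ := fun z => 8 * ‖1 - ω z‖ * (1 + ‖ω z‖) + 32 * M ^ 2 * (η + ‖1 - ω z‖) with hErr
  -- the inequality for a cluster
  have key : ∀ b ∈ Pa.image π, (if W b = 1 then (1 : ℝ) else 4 * W b - 4) -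
      ∑ z ∈ Pa.filter (fun z => π z = b), cw m z * Err z +
      ∑ z ∈ Pa.filter (fun z => π z = b), 2 * cw m z * ((K ((starRingEnd ℂ) z) z).re - (K z z).re) ≤
      ∑ z ∈ Pa.filter (fun z => π z = b), ∑ w ∈ Pa.filter (fun z => π z = b),
        (κ (π z) / W (π z) * (cw m z * cw m w) *
        ((K ((starRingEnd ℂ) z) w).re + (K ((starRingEnd ℂ) z) ((starRingEnd ℂ) w)).re) -
          (κ (π z) / W (π z)) ^ 2 * (cw m z * cw m w)) := by
    intro b hb
    obtain ⟨C, hC⟩ : ∃ C, C = Pa.filter (fun z => π z = b) := ⟨_, rfl⟩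
    have hWC : W b = ∑ z ∈ C, cw m z := by rw [hC]
    rw [← hC]
    have hCm : ∀ z ∈ C, z ∈ Pa ∧ π z = b := fun z hz => by rwa [hC, Finset.mem_filter] at hz
    obtain ⟨z0, hz0, hz0b⟩ := Finset.mem_image.1 hb
    have hz0C : z0 ∈ C := by
      rw [hC]
      exact Finset.mem_filter.2 ⟨hz0, hz0b⟩
    by_cases hcard : C.card = 1
    · -- one point
      obtain ⟨z, hz⟩ := Finset.card_eq_one.1 hcard
      have hzC : z ∈ C := by rw [hz]; exact Finset.mem_singleton_self z
      have hzP := (hPam z (hCm z hzC).1).1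
      rw [hz] at hWC ⊢
      rw [Finset.sum_singleton] at hWC
      rw [Finset.sum_singleton, Finset.sum_singleton, Finset.sum_singleton, Finset.sum_singleton,
        (hCm z hzC).2, hKc z]
      have hR := sq_re_ge (ω z)
      rw [← hKd] at hR
      have hx0 := norm_nonneg (1 - ω z)
      have hy0 := norm_nonneg (ω z)
      have hX0 : 0 ≤ ‖1 - ω z‖ * (1 + ‖ω z‖) := by positivity
      have hE : 8 * (‖1 - ω z‖ * (1 + ‖ω z‖)) ≤ Err z := by
        simp only [hErr]
        have : 0 ≤ 32 * M ^ 2 * (η + ‖1 - ω z‖) := by positivity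
        linarith
      by_cases hw : W b = 1
      · have hreal : z.im = 0 := by
          by_contra hne
          have b1 := cw_two hm1 (hPm z hzP).1 hne
          rw [← hWC, hw] at b1
          linarith
        have hc : (starRingEnd ℂ) z = z := Complex.conj_eq_iff_im.mpr hreal
        have hk1 : κ b = 1 := by simp only [hκ]; rw [if_pos hw]
        rw [if_pos hw, hk1, hc, ← hWC, hw]
        linarith
      · have hk2 : κ b = 2 := by simp only [hκ]; rw [if_neg hw]
        have hW2 : 2 ≤ W b := by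
          rw [hWC] at hw ⊢
          exact cw_two_of_ne hm1 (hPm z hzP).1 hw
        rw [if_neg hw, hk2, ← hWC]
        have hW0 : W b ≠ 0 := by linarith
        set w := W b
        set A := (K ((starRingEnd ℂ) z) z).re
        set R := (K z z).re
        have e1 : 2 / w * (w * w) * (A + R) - (2 / w) ^ 2 * (w * w) = 2 * w * (A + R) - 4 := by
          field_simp
          ring
        rw [e1]
        have h1 : w * (8 * (‖1 - ω z‖ * (1 + ‖ω z‖))) ≤ w * Err z :=
          mul_le_mul_of_nonneg_left hE (by linarith)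
        have h2 : w * (1 - ‖1 - ω z‖ * (1 + ‖ω z‖)) ≤ w * R :=
          mul_le_mul_of_nonneg_left hR (by linarith)
        have h3 : 0 ≤ w * (‖1 - ω z‖ * (1 + ‖ω z‖)) := mul_nonneg (by linarith) hX0
        linarith
    · -- several points
      have hcard2 : 1 < C.card := by
        have : 0 < C.card := Finset.card_pos.2 ⟨z0, hz0C⟩
        omega
      have hCS : ∀ z ∈ C, z ∈ S := by
        intro z hz
        obtain ⟨w, hw, hwz⟩ := Finset.exists_mem_ne hcard2 z
        rcases hclose z w ((hCm z hz).2.trans (hCm w hw).2.symm) with h | h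
        · exact absurd h.symm hwz
        · exact h.1
      have hCd : ∀ z ∈ C, ∀ w ∈ C, ‖z - w‖ ≤ 4 * d := by
        intro z hz w hw
        rcases hclose z w ((hCm z hz).2.trans (hCm w hw).2.symm) with h | h
        · rw [h, sub_self, norm_zero]
          linarith
        · exact h.2.2.le
      have hCi : ∀ z ∈ C, |z.im| < d := fun z hz => (hSm z (hCS z hz)).2.1
      have hCω : ∀ z ∈ C, ‖ω z‖ ≤ M := fun z hz =>
        hωM z (hPm z (hPam z (hCm z hz).1).1).1 (hPam z (hCm z hz).1).2 (hCi z hz)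
      have hW2 : 2 ≤ W b := by
        obtain ⟨w, hw, hwz⟩ := Finset.exists_mem_ne hcard2 z0
        rw [hWC]
        have h1 : cw m w + cw m z0 ≤ ∑ z ∈ C, cw m z := by
          rw [← Finset.sum_pair hwz]
          refine Finset.sum_le_sum_of_subset_of_nonneg ?_ fun u _ _ => cw_nonneg m u
          intro u hu
          rw [Finset.mem_insert, Finset.mem_singleton] at hu
          rcases hu with rfl | rfl
          · exact hw
          · exact hz0C
        have h2 := cw_ge hm1 (hPm w (hPam w (hCm w hw).1).1).1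
        have h3 := cw_ge hm1 (hPm z0 (hPam z0 hz0).1).1
        linarith
      have hw1 : W b ≠ 1 := fun h => by rw [h] at hW2; norm_num at hW2
      have hk2 : κ b = 2 := by simp only [hκ]; rw [if_neg hw1]
      have hcl := cl_multi C (cw m) (fun z => ‖1 - ω z‖) (fun z _ => cw_nonneg m z)
        (fun z _ => norm_nonneg _) (fun z w => (K ((starRingEnd ℂ) z) w).re)
        (fun z w => (K ((starRingEnd ℂ) z) ((starRingEnd ℂ) w)).re) (fun z => (K z z).re) M η (W b)
        hM hη hWC (by linarith) ?_ ?_ ?_ ?_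
      · have e1 : ∑ z ∈ C, ∑ w ∈ C, (κ (π z) / W (π z) * (cw m z * cw m w) *
            ((K ((starRingEnd ℂ) z) w).re + (K ((starRingEnd ℂ) z) ((starRingEnd ℂ) w)).re) -
            (κ (π z) / W (π z)) ^ 2 * (cw m z * cw m w)) =
            ∑ z ∈ C, ∑ w ∈ C, (2 / W b * (cw m z * cw m w) *
            ((K ((starRingEnd ℂ) z) w).re + (K ((starRingEnd ℂ) z) ((starRingEnd ℂ) w)).re) -
            (2 / W b) ^ 2 * (cw m z * cw m w)) := by
          refine Finset.sum_congr rfl fun z hz => ?_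
          rw [(hCm z hz).2, hk2]
        rw [e1, if_neg hw1]
        have e2 : 16 * M ^ 2 * ∑ z ∈ C, cw m z * (‖1 - ω z‖ + η) ≤ ∑ z ∈ C, cw m z * Err z := by
          rw [Finset.mul_sum]
          refine Finset.sum_le_sum fun z _ => ?_
          have h1 : 16 * M ^ 2 * (‖1 - ω z‖ + η) ≤ Err z := by
            simp only [hErr]
            have h2 : 0 ≤ 8 * ‖1 - ω z‖ * (1 + ‖ω z‖) := by positivity
            have h3 : 0 ≤ M ^ 2 * (η + ‖1 - ω z‖) := by positivity
            linarith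
          have h2 := mul_le_mul_of_nonneg_left h1 (cw_nonneg m z)
          linarith
        linarith
      · intro z hz w hw
        have h1 : ‖(starRingEnd ℂ) z - w‖ ≤ 6 * d := by
          calc ‖(starRingEnd ℂ) z - w‖ = ‖((starRingEnd ℂ) z - z) + (z - w)‖ := by congr 1; ring
            _ ≤ ‖(starRingEnd ℂ) z - z‖ + ‖z - w‖ := norm_add_le _ _
            _ ≤ 6 * d := by
              rw [him2]
              linarith [hCi z hz, hCd z hz w hw]
        have h2 := near_one (ω ((starRingEnd ℂ) z)) (ω w) (φ ((starRingEnd ℂ) z - w))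
          (by rw [hωn]; exact hCω z hz) hM (hCω w hw) (hφ _ h1)
        rw [hω1] at h2
        have h3 := (Complex.abs_re_le_norm _).trans h2
        rw [Complex.sub_re, Complex.one_re] at h3
        have h4 := (abs_le.1 h3).1
        change 1 - (‖1 - ω z‖ + M * ‖1 - ω w‖ + M ^ 2 * η) ≤
          (ω ((starRingEnd ℂ) z) * ω w * φ ((starRingEnd ℂ) z - w)).re
        linarith
      · intro z hz w hw
        have h1 : ‖(starRingEnd ℂ) z - (starRingEnd ℂ) w‖ ≤ 6 * d := by
          rw [← map_sub, RCLike.norm_conj]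
          linarith [hCd z hz w hw]
        have h2 := near_one (ω ((starRingEnd ℂ) z)) (ω ((starRingEnd ℂ) w))
          (φ ((starRingEnd ℂ) z - (starRingEnd ℂ) w))
          (by rw [hωn]; exact hCω z hz) hM (by rw [hωn]; exact hCω w hw) (hφ _ h1)
        rw [hω1, hω1] at h2
        have h3 := (Complex.abs_re_le_norm _).trans h2
        rw [Complex.sub_re, Complex.one_re] at h3
        have h4 := (abs_le.1 h3).1
        change 1 - (‖1 - ω z‖ + M * ‖1 - ω w‖ + M ^ 2 * η) ≤
          (ω ((starRingEnd ℂ) z) * ω ((starRingEnd ℂ) w) *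
            φ ((starRingEnd ℂ) z - (starRingEnd ℂ) w)).re
        linarith
      · intro z hz
        have h1 : ‖(starRingEnd ℂ) z - z‖ ≤ 6 * d := by
          rw [him2]
          linarith [hCi z hz]
        have h2 := near_one (ω ((starRingEnd ℂ) z)) (ω z) (φ ((starRingEnd ℂ) z - z))
          (by rw [hωn]; exact hCω z hz) hM (hCω z hz) (hφ _ h1)
        rw [hω1] at h2
        have h3 := (Complex.abs_re_le_norm _).trans h2
        rw [Complex.sub_re, Complex.one_re] at h3
        have h4 := (abs_le.1 h3).2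
        change (ω ((starRingEnd ℂ) z) * ω z * φ ((starRingEnd ℂ) z - z)).re ≤
          1 + (‖1 - ω z‖ + M * ‖1 - ω z‖ + M ^ 2 * η)
        linarith
      · intro z hz
        have h1 : ‖z - z‖ ≤ 6 * d := by
          rw [sub_self, norm_zero]
          linarith
        have h2 := near_one (ω z) (ω z) (φ (z - z)) (hCω z hz) hM (hCω z hz) (hφ _ h1)
        have h3 := (Complex.abs_re_le_norm _).trans h2
        rw [Complex.sub_re, Complex.one_re] at h3
        have h4 := (abs_le.1 h3).1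
        change 1 - (‖1 - ω z‖ + M * ‖1 - ω z‖ + M ^ 2 * η) ≤ (ω z * ω z * φ (z - z)).re
        linarith
  rw [sum_fib] at hT
  have hks := Finset.sum_le_sum key
  rw [Finset.sum_add_distrib, Finset.sum_sub_distrib, ← sum_fib1 Pa π (fun z => cw m z * Err z),
    ← sum_fib1 Pa π (fun z => 2 * cw m z * ((K ((starRingEnd ℂ) z) z).re - (K z z).re))] at hks
  -- the points of weight one
  have hzero : ∀ z ∈ Pa, z ∉ S → Pa.filter (fun w => π w = π z) = {z} := by
    intro z hz hzS
    ext w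
    rw [Finset.mem_filter, Finset.mem_singleton]
    constructor
    · rintro ⟨_, h⟩
      rcases hclose w z h with h1 | h1
      · exact h1
      · exact absurd h1.2.1 hzS
    · rintro rfl
      exact ⟨hz, rfl⟩
  have hfibP : ∀ z ∈ S, Pa.filter (fun w => π w = π z) = S.filter (fun w => ρ w = ρ z) := by
    intro z hz
    ext w
    simp only [Finset.mem_filter]
    constructor
    · rintro ⟨_, h⟩
      rcases hclose w z h with h1 | h1
      · rw [h1]; exact ⟨hz, rfl⟩
      · rw [hπS w h1.1, hπS z hz] at h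
        exact ⟨h1.1, h⟩
    · rintro ⟨h1, h2⟩
      exact ⟨(hSm w h1).1, by rw [hπS w h1, hπS z hz, h2]⟩
  have hone : ∀ b ∈ Pa.image π, W b = 1 → b ∈ Pa ∧ b ∉ S ∧ b.im = 0 ∧ m b = 1 ∧ Pa.filter (fun z => π z = b) = {b} := by
    intro b hb hWb
    obtain ⟨z, hz, rfl⟩ := Finset.mem_image.1 hb
    have hzS : z ∉ S := by
      intro hzS
      obtain ⟨x, y, ⟨hx, hy, hxy, -⟩, hfib⟩ := hρ3 z hzS
      have hxf : x ∈ S.filter (fun w => ρ w = ρ z) ∧ y ∈ S.filter (fun w => ρ w = ρ z) := by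
        rcases hfib with hfib | ⟨u, -, -, hfib⟩ <;> rw [hfib] <;> simp
      rw [← hfibP z hzS] at hxf
      have h1 : cw m x + cw m y ≤ W (π z) := by
        simp only [hW]
        rw [← Finset.sum_pair hxy]
        refine Finset.sum_le_sum_of_subset_of_nonneg ?_ fun w _ _ => cw_nonneg m w
        intro w hw
        rw [Finset.mem_insert, Finset.mem_singleton] at hw
        rcases hw with rfl | rfl
        · exact hxf.1
        · exact hxf.2
      have h2 := cw_ge hm1 (hPm x (hPam x (hSm x hx).1).1).1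
      have h3 := cw_ge hm1 (hPm y (hPam y (hSm y hy).1).1).1
      linarith
    have hπz := hπN z hzS
    have hzP := (hPam z hz).1
    have h1 : cw m z = 1 := by
      rw [← hWb]
      simp only [hW]
      rw [hzero z hz hzS, Finset.sum_singleton]
    have h2 : z.im = 0 := by
      by_contra hne
      have := cw_two hm1 (hPm z hzP).1 hne
      linarith
    have h3 : m z = 1 := by
      have h4 : cw m z = m z := by unfold cw; rw [if_pos h2]
      rw [h4] at h1
      exact_mod_cast h1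
    have h5 := hzero z hz hzS
    rw [hπz] at h5 ⊢
    exact ⟨hz, hzS, h2, h3, h5⟩
  -- the discrepancy of one cluster
  have halt : ∀ x y, Cons S d x y → x.im = 0 ∧ Odd (m x) → y.im = 0 ∧ Odd (m y) → es Z m y = - es Z m x := by
    rintro x y ⟨hx, hy, hxy, h1, h2, h3⟩ hxo hyo
    have hlt : x.re < y.re := lt_of_le_of_ne h1 fun h => hxy (Complex.ext h (hxo.1.trans hyo.1.symm))
    have hxP := (hSm x hx).1
    have hyP := (hSm y hy).1
    rw [es_of hxo, es_of hyo]
    refine eps_step hZ hmc (hPm y (hPam y hyP).1).1 hyo.1 hyo.2 hlt fun w hw hw0 g1 g2 => ?_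
    exfalso
    have haw : a w := hconv x y w (hPam x hxP).2 (hPam y hyP).2 g1.le g2.le
    have hwPa : w ∈ Pa := Finset.mem_filter.2 ⟨Finset.mem_filter.2 ⟨hw, hw0.ge⟩, haw⟩
    have hwS : w ∈ S := by
      refine hSmem w hwPa (by rw [hw0, abs_zero]; exact hd) x hxP (fun h => by rw [h] at g1; exact lt_irrefl _ g1)
        (by rw [hxo.1, abs_zero]; exact hd) ?_
      have h4 := Complex.norm_le_abs_re_add_abs_im (w - x)
      rw [Complex.sub_re, Complex.sub_im, hw0, hxo.1, sub_zero, abs_zero, add_zero, abs_of_pos (by linarith)] at h4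
      linarith
    exact h3 w hwS ⟨g1, g2⟩
  have hdisc : ∀ b ∈ Pa.image π, W b ≠ 1 → |∑ z ∈ Pa.filter (fun z => π z = b), es Z m z| ≤ 2 * W b - 4 := by
    intro b hb hWb
    obtain ⟨z, hz, rfl⟩ := Finset.mem_image.1 hb
    have hzP := (hPam z hz).1
    by_cases hzS : z ∈ S
    · have hmS : ∀ x ∈ S, 1 ≤ cw m x := fun x hx => cw_ge hm1 (hPm x (hPam x (hSm x hx).1).1).1
      have hmS2 : ∀ x ∈ S, ¬ (x.im = 0 ∧ Odd (m x)) → 2 ≤ cw m x := fun x hx h =>
        cw_two_of_es hm1 (hPm x (hPam x (hSm x hx).1).1).1 h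
      have hWz : W (π z) = ∑ w ∈ S.filter (fun w => ρ w = ρ z), cw m w := by
        simp only [hW]
        rw [hfibP z hzS]
      rw [hWz, hfibP z hzS]
      obtain ⟨x, y, hc, hfib⟩ := hρ3 z hzS
      have hx := hmS x hc.1
      have hy := hmS y hc.2.1
      have hex := abs_le.1 (es_abs Z m x)
      have hey := abs_le.1 (es_abs Z m y)
      rcases hfib with hfib | ⟨u, hc2, hxu, hfib⟩
      · rw [hfib, Finset.sum_pair hc.2.2.1, Finset.sum_pair hc.2.2.1]
        by_cases hxo : x.im = 0 ∧ Odd (m x)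
        · by_cases hyo : y.im = 0 ∧ Odd (m y)
          · rw [halt x y hc hxo hyo, add_neg_cancel, abs_zero]
            linarith
          · have := hmS2 y hc.2.1 hyo
            rw [es_not hyo, add_zero]
            refine (es_abs Z m x).trans ?_
            linarith
        · have := hmS2 x hc.1 hxo
          rw [es_not hxo, zero_add]
          refine (es_abs Z m y).trans ?_
          linarith
      · have hyu := hc2.2.2.1
        have hu := hmS u hc2.2.1
        have heu := abs_le.1 (es_abs Z m u)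
        have hs : ∀ f : ℂ → ℝ, ∑ w ∈ ({x, y, u} : Finset ℂ), f w = f x + (f y + f u) := by
          intro f
          rw [Finset.sum_insert (by simp [hc.2.2.1, hxu]), Finset.sum_pair hyu]
        rw [hfib, hs, hs]
        by_cases hxo : x.im = 0 ∧ Odd (m x)
        · by_cases hyo : y.im = 0 ∧ Odd (m y)
          · rw [halt x y hc hxo hyo]
            have e1 : es Z m x + (-es Z m x + es Z m u) = es Z m u := by ring
            rw [e1, abs_le]
            constructor <;> linarith [heu.1, heu.2]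
          · rw [es_not hyo, abs_le]
            constructor <;> linarith [heu.1, heu.2, hex.1, hex.2]
        · rw [es_not hxo, abs_le]
          constructor <;> linarith [heu.1, heu.2, hey.1, hey.2]
    · have hWz : W (π z) = cw m z := by
        simp only [hW]
        rw [hzero z hz hzS, Finset.sum_singleton]
      rw [hzero z hz hzS, Finset.sum_singleton, hWz]
      rw [hWz] at hWb
      by_cases hzo : z.im = 0 ∧ Odd (m z)
      · have h4 : cw m z = m z := by unfold cw; rw [if_pos hzo.1]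
        rw [h4] at hWb ⊢
        have h5 : m z ≠ 1 := fun h => hWb (by rw [h]; norm_num)
        have h6 : 3 ≤ m z := by
          obtain ⟨j, hj⟩ := hzo.2
          omega
        have h7 : (3 : ℝ) ≤ m z := by exact_mod_cast h6
        refine (es_abs Z m z).trans ?_
        linarith
      · rw [es_not hzo, abs_zero]
        have := cw_two_of_ne hm1 (hPm z hzP).1 hWb
        linarith
  -- the count
  have hcnt : 2 * ∑ z ∈ Pa, cw m z - 2 * (((Pa.image π).filter (fun b => W b = 1 ∧ eps Z m b.re = τ)).card : ℝ) ≤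
      ∑ b ∈ Pa.image π, (if W b = 1 then (1 : ℝ) else 4 * W b - 4) + 1 := by
    have h1 : ∀ b ∈ Pa.image π, 2 * W b - (if W b = 1 ∧ eps Z m b.re = τ then (2 : ℝ) else 0) ≤
        (if W b = 1 then (1 : ℝ) else 4 * W b - 4) - τ * ∑ z ∈ Pa.filter (fun z => π z = b), es Z m z := by
      intro b hb
      by_cases hWb : W b = 1
      · obtain ⟨h2, h3, h4, h5, h6⟩ := hone b hb hWb
        rw [h6, Finset.sum_singleton, es_of ⟨h4, by rw [h5]; exact odd_one⟩, if_pos hWb, hWb]
        by_cases h7 : eps Z m b.re = τ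
        · rw [if_pos ⟨rfl, h7⟩, h7]
          rcases hτ with h8 | h8 <;> rw [h8] <;> norm_num
        · rw [if_neg (fun h => h7 h.2)]
          rcases hτ with h8 | h8 <;> rcases eps_or Z m b.re with h9 | h9 <;>
            first
            | exact absurd (h9.trans h8.symm) h7
            | (rw [h8, h9]; norm_num)
      · have h2 := abs_le.1 (hdisc b hb hWb)
        rw [if_neg hWb, if_neg (fun h => hWb h.1)]
        rcases hτ with h8 | h8 <;> rw [h8] <;> linarith [h2.1, h2.2]
    have h2 := Finset.sum_le_sum h1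
    rw [Finset.sum_sub_distrib, Finset.sum_sub_distrib, ← Finset.mul_sum, ← Finset.mul_sum,
      ← sum_fib1 Pa π (fun z => cw m z), ← sum_fib1 Pa π (fun z => es Z m z)] at h2
    have h3 : |∑ z ∈ Pa, es Z m z| ≤ 1 := by
      refine es_sum hZ hmc Pa (fun z hz => (hPm z (hPam z hz).1).1) fun x hx y hy w hw hw0 g1 g2 => ?_
      exact Finset.mem_filter.2 ⟨Finset.mem_filter.2 ⟨hw, hw0.ge⟩, hconv x y w (hPam x hx).2 (hPam y hy).2 g1 g2⟩
    have h4 : -(τ * ∑ z ∈ Pa, es Z m z) ≤ 1 := by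
      have h5 := abs_le.1 h3
      rcases hτ with h8 | h8 <;> rw [h8] <;> linarith [h5.1, h5.2]
    have h5 : ∑ b ∈ Pa.image π, (if W b = 1 ∧ eps Z m b.re = τ then (2 : ℝ) else 0) =
        2 * (((Pa.image π).filter (fun b => W b = 1 ∧ eps Z m b.re = τ)).card : ℝ) := by
      rw [← Finset.sum_filter, Finset.sum_const, nsmul_eq_mul, mul_comm]
    rw [h5] at h2
    linarith
  -- the isolated points
  have hcard : (((Pa.image π).filter (fun b => W b = 1 ∧ eps Z m b.re = τ)).card : ℝ) ≤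
      ((Z.filter (fun z => a z ∧ z.im = 0 ∧ m z = 1 ∧ (∀ w ∈ Z, a w → w ≠ z → d ≤ ‖z - w‖) ∧ eps Z m z.re = τ)).card : ℝ) := by
    have : (Pa.image π).filter (fun b => W b = 1 ∧ eps Z m b.re = τ) ⊆ Z.filter (fun z => a z ∧ z.im = 0 ∧ m z = 1 ∧
        (∀ w ∈ Z, a w → w ≠ z → d ≤ ‖z - w‖) ∧ eps Z m z.re = τ) := by
      intro z hb
      rw [Finset.mem_filter] at hb
      obtain ⟨hb, hWb, hτb⟩ := hb
      obtain ⟨hz, hzS, h2, h3, -⟩ := hone z hb hWb
      have hzP := (hPam z hz).1
      rw [Finset.mem_filter]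
      refine ⟨(hPm z hzP).1, (hPam z hz).2, h2, h3, ?_, hτb⟩
      have hup : ∀ w ∈ Pa, w ≠ z → d ≤ ‖z - w‖ := by
        intro w hw hwz
        by_contra hlt
        push Not at hlt
        apply hzS
        rw [hS, Finset.mem_filter]
        refine ⟨hz, by rw [h2, abs_zero]; exact hd, w, hw, hwz, ?_, hlt⟩
        have h6 : w.im = -(z - w).im := by rw [Complex.sub_im, h2]; ring
        rw [h6, abs_neg]
        exact (Complex.abs_im_le_norm _).trans_lt hlt
      intro w hw haw hwz
      by_cases hw0 : 0 ≤ w.im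
      · exact hup w (Finset.mem_filter.2 ⟨Finset.mem_filter.2 ⟨hw, hw0⟩, haw⟩) hwz
      · have h7 : (starRingEnd ℂ) z = z := Complex.conj_eq_iff_im.mpr h2
        have h8 := hup ((starRingEnd ℂ) w) (Finset.mem_filter.2 ⟨Finset.mem_filter.2 ⟨hZ w hw, by
          rw [Complex.conj_im]; linarith [not_le.1 hw0]⟩, (ha w).2 haw⟩) (by
            intro h
            apply hwz
            have := congrArg (starRingEnd ℂ) h
            rwa [Complex.conj_conj, h7] at this)
        rwa [← h7, ← map_sub, RCLike.norm_conj] at h8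
    exact_mod_cast Finset.card_le_card this
  -- sums over all points
  have f1 : ∑ z ∈ Pa, cw m z = ∑ z ∈ Z.filter a, (m z : ℝ) := by
    have h1 := split_real Z hZ m hmc (fun z => if a z then (1 : ℝ) else 0)
      (fun z => by simp only [ha])
    have e1 : ∑ z ∈ Pa, cw m z = ∑ z ∈ P, if a z then cw m z else 0 := Finset.sum_filter _ _
    have e2 : ∑ z ∈ Z.filter a, (m z : ℝ) = ∑ z ∈ Z, if a z then (m z : ℝ) else 0 :=
      Finset.sum_filter _ _
    rw [e1, e2]
    rw [← hP] at h1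
    have h2 : ∀ z ∈ Z, (m z : ℝ) * (if a z then (1 : ℝ) else 0) = if a z then (m z : ℝ) else 0 := by
      intro z _
      split_ifs <;> simp
    have h3 : ∀ z ∈ P, cw m z * (if a z then (1 : ℝ) else 0) = if a z then cw m z else 0 := by
      intro z _
      split_ifs <;> simp
    rw [Finset.sum_congr rfl h2, Finset.sum_congr rfl h3] at h1
    exact h1.symm
  have f2 : ∑ z ∈ Pa, cw m z * Err z = ∑ z ∈ Z.filter a, (m z : ℝ) * Err z := by
    have h1 := split_real Z hZ m hmc (fun z => if a z then Err z else 0) (fun z => by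
      simp only [ha, hErr, hωn, hω1])
    have e1 : ∑ z ∈ Pa, cw m z * Err z = ∑ z ∈ P, if a z then cw m z * Err z else 0 :=
      Finset.sum_filter _ _
    have e2 : ∑ z ∈ Z.filter a, (m z : ℝ) * Err z = ∑ z ∈ Z, if a z then (m z : ℝ) * Err z else 0 :=
      Finset.sum_filter _ _
    rw [e1, e2]
    rw [← hP] at h1
    have h2 : ∀ z ∈ Z, (m z : ℝ) * (if a z then Err z else 0) =
        if a z then (m z : ℝ) * Err z else 0 := by
      intro z _
      split_ifs <;> simp
    have h3 : ∀ z ∈ P, cw m z * (if a z then Err z else 0) = if a z then cw m z * Err z else 0 := by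
      intro z _
      split_ifs <;> simp
    rw [Finset.sum_congr rfl h2, Finset.sum_congr rfl h3] at h1
    exact h1.symm
  -- the points without `a`
  set X : ℂ → ℝ := fun z => 2 * cw m z * ((K ((starRingEnd ℂ) z) z).re - (K z z).re) with hX
  have f3 : ∑ z ∈ P, X z = ∑ z ∈ Pa, X z + ∑ z ∈ P, (if ¬ a z then X z else 0) := by
    have e1 : ∑ z ∈ Pa, X z = ∑ z ∈ P, if a z then X z else 0 := Finset.sum_filter _ _
    rw [e1, ← Finset.sum_add_distrib]
    refine Finset.sum_congr rfl fun z _ => ?_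
    by_cases haz : a z
    · rw [if_pos haz, if_neg (not_not.2 haz), add_zero]
    · rw [if_neg haz, if_pos haz, zero_add]
  set t4 : ℂ → ℝ := fun z => if ¬ a z ∧ ¬ far z then
    4 * (m z : ℝ) * (‖ω z‖ ^ 2 * (‖φ (z - (starRingEnd ℂ) z)‖ + 1)) else 0 with ht4
  set t5 : ℂ → ℝ := fun z => if ¬ a z ∧ far z then (m z : ℝ) * (8 * ‖ω z‖ ^ 2 + 4) else 0 with ht5
  have hre : ∀ z, |(ω z ^ 2).re| ≤ ‖ω z‖ ^ 2 := by
    intro z
    rw [← norm_pow]
    exact Complex.abs_re_le_norm _
  have hterm : ∀ z ∈ P, (if ¬ a z then X z else 0) ≤ (if ¬ a z ∧ far z then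
        (2 * (cw m z * ((K ((starRingEnd ℂ) z) z).re + (K ((starRingEnd ℂ) z)
          ((starRingEnd ℂ) z)).re)) - 4) else 0) + t4 z + t5 z := by
    intro z hz
    have hzZ := hPm z hz
    have hmz : (1 : ℝ) ≤ m z := by exact_mod_cast hm1 z hzZ.1
    have hr := abs_le.1 (hre z)
    by_cases haz : a z
    · simp only [ht4, ht5, haz, not_true_eq_false, false_and, if_false]
      linarith
    · by_cases hf : far z
      · have hc2 : cw m z = 2 * m z := by unfold cw; rw [if_neg (hfar z hf)]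
        simp only [ht4, ht5, hX, haz, hf, not_true_eq_false, and_false, not_false_eq_true,
          and_self, if_true, if_false]
        rw [hKc, hKd, hc2]
        have h1 : -((m z : ℝ) * ‖ω z‖ ^ 2) ≤ (m z : ℝ) * (ω z ^ 2).re := by
          rw [← mul_neg]
          exact mul_le_mul_of_nonneg_left hr.1 (by linarith)
        nlinarith
      · simp only [ht4, ht5, hX, haz, hf, not_false_eq_true, and_self, if_true, and_false,
          if_false]
        rw [hKd]
        by_cases h0' : z.im = 0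
        · have hzc : (starRingEnd ℂ) z = z := Complex.conj_eq_iff_im.mpr h0'
          rw [hzc, hKd]
          have : 0 ≤ 4 * (m z : ℝ) * (‖ω z‖ ^ 2 * (‖φ (z - z)‖ + 1)) := by positivity
          linarith
        · have hc2 : cw m z = 2 * m z := by unfold cw; rw [if_neg h0']
          have h1 : (K ((starRingEnd ℂ) z) z).re ≤ ‖ω z‖ ^ 2 * ‖φ (z - (starRingEnd ℂ) z)‖ := by
            refine (Complex.re_le_norm _).trans ?_
            simp only [hK]
            rw [norm_mul, norm_mul, hω, RCLike.norm_conj, ← hev ((starRingEnd ℂ) z - z), neg_sub]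
            exact le_of_eq (by ring)
          rw [hc2]
          have h2 : (m z : ℝ) * ((K ((starRingEnd ℂ) z) z).re - (ω z ^ 2).re) ≤
              (m z : ℝ) * (‖ω z‖ ^ 2 * (‖φ (z - (starRingEnd ℂ) z)‖ + 1)) := by
            apply mul_le_mul_of_nonneg_left _ (by linarith)
            linarith
          nlinarith
  have hsum := Finset.sum_le_sum hterm
  rw [Finset.sum_add_distrib, Finset.sum_add_distrib] at hsum
  have f4 : ∑ z ∈ P, t4 z ≤ ∑ z ∈ Z.filter (fun z => ¬ a z ∧ ¬ far z),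
          4 * (m z : ℝ) * (‖ω z‖ ^ 2 * (‖φ (z - (starRingEnd ℂ) z)‖ + 1)) := by
    rw [Finset.sum_filter (fun z => ¬ a z ∧ ¬ far z)]
    exact Finset.sum_le_sum_of_subset_of_nonneg (Finset.filter_subset _ _) fun z _ _ => by
      simp only [ht4]
      split_ifs <;> positivity
  have f5 : ∑ z ∈ P, t5 z ≤
      ∑ z ∈ Z.filter (fun z => ¬ a z ∧ far z), (m z : ℝ) * (8 * ‖ω z‖ ^ 2 + 4) := by
    rw [Finset.sum_filter (fun z => ¬ a z ∧ far z)]
    exact Finset.sum_le_sum_of_subset_of_nonneg (Finset.filter_subset _ _) fun z _ _ => by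
      simp only [ht5]
      split_ifs <;> positivity
  have hT' : (∑ b ∈ Pa.image π, ∑ z ∈ Pa.filter (fun z => π z = b),
      ∑ w ∈ Pa.filter (fun z => π z = b),
        (κ (π z) / W (π z) * (cw m z * cw m w) *
        ((K ((starRingEnd ℂ) z) w).re + (K ((starRingEnd ℂ) z) ((starRingEnd ℂ) w)).re) -
          (κ (π z) / W (π z)) ^ 2 * (cw m z * cw m w))) +
      ∑ z ∈ P, (if ¬ a z ∧ far z then
        (2 * (cw m z * ((K ((starRingEnd ℂ) z) z).re + (K ((starRingEnd ℂ) z)
          ((starRingEnd ℂ) z)).re)) - 4) else 0) ≤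
      (∑ z ∈ Z, ∑ w ∈ Z, (m z : ℂ) * (m w : ℂ) * (K z w) ^ 2).re + ∑ z ∈ P, X z := hT
  rw [f3] at hT'
  rw [f2] at hks
  rw [f1] at hcnt
  linarith

end Pool.Agent.H4.SG
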