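import Pool.Agent.H4.SG.Win
import Pool.Graph.R_pool_sql_team_seeded_3997aac3.Q97.UM.Base13
import Pool.Agent.H4.LD.Mo

set_option autoImplicit false

/-! From windows to the isolated zeros with a given parity of the index (after Q148/UM/SAMPI.lean and Q190/UM/SAMW.lean). -/

namespace Pool.Agent.H4.SG

open Filter Topology MeasureTheory Complex
open Pool.Agent.Q97.UM Pool.Agent.Q148.UM Pool.Agent.Q190.UM
open Pool.Agent.Q61.UM (samp_cmp)

noncomputable section

open Classical in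
/-- the isolated zeros with parity `τ` -/
def ZS (τ d T : ℝ) : Finset ℂ := (ZI d T).filter (fun s => s ∈ ZT T ∧ sgT T s.im = τ)

open Classical in
/-- indicator of the isolated zeros with parity `τ` -/
def wis (τ d T : ℝ) (s : ℂ) : ℝ := if s ∈ ZS τ d T then 1 else 0

open Classical in
theorem Nisw_le {τ d T H t : ℝ} (hT : 16 ≤ T) (hL2 : 2 ≤ Real.log T) (hH : 0 < H) (hLH : H ≤ Real.log T) (hd : d ≤ 1)
    (ht1 : T + 2 * Real.log T ≤ t) (ht2 : t ≤ 2 * T - 2 * Real.log T) :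
    Nisw τ d T (H / Real.log T) t ≤ ∑ s ∈ (ZT T).filter (fun s => |s.im - t| ≤ H / Real.log T), wis τ d T s +
      (cz (t + H / Real.log T) (1 / Real.log T) (0 / Real.log T) +
        cz (t + -(H / Real.log T)) (1 / Real.log T) (0 / Real.log T)) := by
  have hF := H370.good_zeta
  set L := Real.log T with hL
  have hL0 : 0 < L := by linarith
  set r := H / L with hr
  have hr0 : 0 < r := by positivity
  have hr1 : r ≤ 1 := by rw [hr, div_le_one hL0]; exact hLH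
  have hdL : d / L ≤ 1 / L := by gcongr
  have h1L : 1 / L ≤ 1 := by rw [div_le_one hL0]; linarith
  have hsum : ∑ s ∈ (ZT T).filter (fun s => |s.im - t| ≤ r), wis τ d T s =
      (((ZT T).filter (fun s => |s.im - t| ≤ r ∧ s ∈ ZS τ d T)).card : ℝ) := by
    unfold wis
    rw [Finset.sum_boole, Finset.filter_filter]
  have hsub : (ZT T).filter (fun s => (s.re = 1 / 2 ∧ mz s = 1 ∧ |s.im - t| ≤ r ∧
      ∀ s' ∈ ZT T, |s'.im - t| ≤ r → s' ≠ s → d / L ≤ ‖s - s'‖) ∧ sgT T s.im = τ) ⊆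
      (ZT T).filter (fun s => |s.im - t| ≤ r ∧ s ∈ ZS τ d T) ∪
      ((ZT T).filter (fun s => |s.im - (t + r)| ≤ 1 / L) ∪ (ZT T).filter (fun s => |s.im - (t + -r)| ≤ 1 / L)) := by
    intro s hs
    rw [Finset.mem_filter] at hs
    obtain ⟨hs0, ⟨hs1, hs2, hs3, hs4⟩, hsτ⟩ := hs
    simp only [Finset.mem_union, Finset.mem_filter]
    by_cases hI : s ∈ ZI d T
    · exact Or.inl ⟨hs0, hs3, Finset.mem_filter.2 ⟨hI, hs0, hsτ⟩⟩
    · right
      have hsF : s ∈ H370.Zf riemannZeta T (2 * T) := by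
        unfold ZT at hs0
        rw [H370.mem_Zf hF (by linarith)] at hs0 ⊢
        obtain ⟨a1, a2, a3, a4, a5⟩ := hs0
        exact ⟨a1, a2, by linarith, by linarith, a5⟩
      have h1 : ∃ s' ∈ ZD T, s' ≠ s ∧ ‖s - s'‖ < d / L := by
        by_contra hcon
        push Not at hcon
        apply hI
        unfold ZI
        rw [Finset.mem_filter]
        exact ⟨hsF, hs1, hs2, fun s' h2 h3 => hcon s' h2 h3⟩
      obtain ⟨s', hs', hne, hlt⟩ := h1
      have him : |s.im - s'.im| < 1 / L := by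
        have h2 := Complex.abs_im_le_norm (s - s')
        rw [Complex.sub_im] at h2
        linarith
      have hil := abs_lt.1 him
      have h3l := abs_le.1 hs3
      have hZT' : s' ∈ ZT T := by
        unfold ZD at hs'
        unfold ZT
        rw [H370.mem_Zf hF (by linarith)] at hs' ⊢
        obtain ⟨a1, a2, a3, a4, a5⟩ := hs'
        exact ⟨a1, a2, by linarith, by linarith, a5⟩
      have hout : r < |s'.im - t| := by
        by_contra hcon
        push Not at hcon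
        exact absurd (hs4 s' hZT' hcon hne) (not_le.2 hlt)
      rcases lt_abs.1 hout with h5 | h5
      · left
        refine ⟨hs0, ?_⟩
        rw [abs_le]
        constructor <;> linarith [hil.1, hil.2, h3l.1, h3l.2]
      · right
        refine ⟨hs0, ?_⟩
        rw [abs_le]
        constructor <;> linarith [hil.1, hil.2, h3l.1, h3l.2]
  have hc1 := cz_ge (t := t + r) (r := 1 / L) (T := T) (by linarith)
  have hc2 := cz_ge (t := t + -r) (r := 1 / L) (T := T) (by linarith)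
  have hcard := (Finset.card_le_card hsub).trans ((Finset.card_union_le _ _).trans
    (Nat.add_le_add_left (Finset.card_union_le _ _) _))
  have hcard' : ((((ZT T).filter (fun s => (s.re = 1 / 2 ∧ mz s = 1 ∧ |s.im - t| ≤ r ∧
      ∀ s' ∈ ZT T, |s'.im - t| ≤ r → s' ≠ s → d / L ≤ ‖s - s'‖) ∧ sgT T s.im = τ)).card : ℕ) : ℝ) ≤
      (((ZT T).filter (fun s => |s.im - t| ≤ r ∧ s ∈ ZS τ d T)).card : ℝ) +
      ((((ZT T).filter (fun s => |s.im - (t + r)| ≤ 1 / L)).card : ℝ) +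
        (((ZT T).filter (fun s => |s.im - (t + -r)| ≤ 1 / L)).card : ℝ)) := by
    exact_mod_cast hcard
  rw [hsum]
  unfold Nisw
  refine hcard'.trans ?_
  gcongr

open Classical in
theorem sum_ZS (τ d T : ℝ) (f : ℝ → ℝ) : ∑ s ∈ H370.Zf riemannZeta T (2 * T), wis τ d T s * f s.im = ∑ s ∈ ZS τ d T, f s.im := by
  have hsub : ZS τ d T ⊆ H370.Zf riemannZeta T (2 * T) := by
    unfold ZS ZI
    exact (Finset.filter_subset _ _).trans (Finset.filter_subset _ _)
  rw [← Finset.sum_subset hsub (f := fun s => wis τ d T s * f s.im)]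
  · refine Finset.sum_congr rfl fun s hs => ?_
    unfold wis
    rw [if_pos hs, one_mul]
  · intro s _ hs
    unfold wis
    rw [if_neg hs, zero_mul]

open Classical in
theorem t_SAMS (hD : S_DPM) (hEDB : ∃ θ c C : ℝ, 0 < θ ∧ θ ≤ 1 / 4 ∧ 0 < c ∧ 0 ≤ C ∧ EDB θ c C) (hWIN : S_WIN)
    (hWINI : ∀ ε₀ : ℝ, 0 < ε₀ → ∃ H₀ : ℝ, 1 ≤ H₀ ∧ ∀ H : ℝ, H₀ ≤ H → ∃ d θ : ℝ, 0 < d ∧ d ≤ 1 ∧ 0 < θ ∧ θ ≤ 1 / 40 ∧
      ∀ᶠ T : ℝ in atTop, ∀ τ : ℝ, (τ = 1 ∨ τ = -1) → ∀ N : ℕ, (N : ℝ) ≤ T ^ θ → ∀ (J : ℕ) (a : Fin J → ℝ) (b : Fin J → ℕ → ℂ),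
        (∀ t : ℝ, 0 ≤ WT N a b t) →
        (H / Real.pi) * (T * ((2 - H370.cMTinv) / 2 * MW N a b - ε₀ * VW N a b)) ≤
          ∫ t in (T + 2 * Real.log T)..(2 * T - 2 * Real.log T), Nisw τ d T (H / Real.log T) t * WT N a b t)
    (ε : ℝ) (hε : 0 < ε) : ∃ d θ : ℝ, 0 < d ∧ d ≤ 1 ∧ 0 < θ ∧ θ ≤ 1 / 40 ∧ ∀ᶠ T : ℝ in atTop, ∀ τ : ℝ, (τ = 1 ∨ τ = -1) → ∀ N : ℕ,
      (N : ℝ) ≤ T ^ θ → ∀ (J : ℕ) (a : Fin J → ℝ) (b : Fin J → ℕ → ℂ), (∀ t : ℝ, 0 ≤ WT N a b t) →
      Real.log T / (2 * Real.pi) * (T * ((2 - H370.cMTinv) / 2 * MW N a b - ε * VW N a b)) ≤ ∑ s ∈ ZS τ d T, WT N a b s.im := by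
  have hF := H370.good_zeta
  have hZ := Pool.Agent.Q178.UM.ZF2.t_ZF2
  obtain ⟨C, hC, hcnt⟩ := H370.zcount hF
  obtain ⟨θE, c, C₂, hθE0, hθE1, hc, hC₂, hE⟩ := hEDB
  obtain ⟨H₁, hH1, hWIN⟩ := hWIN 1 one_pos
  obtain ⟨H₂, hH2, hWI⟩ := hWINI (ε / 4) (by positivity)
  have hπ : 3 < Real.pi := Real.pi_gt_three
  have hπ4 : Real.pi < 4 := Real.pi_lt_four
  obtain ⟨H, hHdef⟩ : ∃ H : ℝ, H = max (max H₁ H₂) (32 * C₂ / ε) := ⟨_, rfl⟩
  have hHa : H₁ ≤ H := by rw [hHdef]; exact (le_max_left _ _).trans (le_max_left _ _)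
  have hHb : H₂ ≤ H := by rw [hHdef]; exact (le_max_right _ _).trans (le_max_left _ _)
  have hHc : 32 * C₂ / ε ≤ H := by rw [hHdef]; exact le_max_right _ _
  have hH : 0 < H := by linarith
  obtain ⟨θ₁, hθ₁0, hθ₁1, hev1⟩ := hWIN H hHa
  obtain ⟨d, θ₂, hd0, hd1, hθ₂0, hθ₂1, hev2⟩ := hWI H hHb
  obtain ⟨θ, hθ⟩ : ∃ θ : ℝ, θ = min (min θ₁ θ₂) (min θE (ε / (128 * H))) := ⟨_, rfl⟩
  have hθ0 : 0 < θ := by rw [hθ]; positivity
  have hθa : θ ≤ θ₁ := by rw [hθ]; exact (min_le_left _ _).trans (min_le_left _ _)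
  have hθb : θ ≤ θ₂ := by rw [hθ]; exact (min_le_left _ _).trans (min_le_right _ _)
  have hθc : θ ≤ θE := by rw [hθ]; exact (min_le_right _ _).trans (min_le_left _ _)
  have hθ40 : θ ≤ 1 / 40 := hθa.trans hθ₁1
  have hθH : θ * (128 * H) ≤ ε := by
    have : θ ≤ ε / (128 * H) := by rw [hθ]; exact (min_le_right _ _).trans (min_le_right _ _)
    rw [le_div_iff₀ (by positivity)] at this
    exact this
  refine ⟨d, θ, hd0, hd1, hθ0, hθ40, ?_⟩
  have hlog : ∀ᶠ T : ℝ in atTop, 12 * C * Real.log T ≤ ε / 32 * T ^ (39 / 40 : ℝ) := by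
    have h1 := isLittleO_log_rpow_atTop (show (0 : ℝ) < 39 / 40 by norm_num)
    have h2 := h1.bound (show 0 < ε / 32 / (12 * C) by positivity)
    filter_upwards [h2, eventually_ge_atTop (1 : ℝ)] with T h hT
    rw [Real.norm_eq_abs, Real.norm_eq_abs, abs_of_nonneg (Real.log_nonneg hT), abs_of_nonneg (by positivity)] at h
    have h3 : 12 * C * Real.log T ≤ 12 * C * (ε / 32 / (12 * C) * T ^ (39 / 40 : ℝ)) := by gcongr
    refine h3.trans (le_of_eq ?_)
    field_simp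
  have hlog2 : ∀ᶠ T : ℝ in atTop, 8 * Real.log T ≤ T := by
    have h2 := (Real.isLittleO_log_id_atTop).bound (show (0 : ℝ) < 1 / 8 by norm_num)
    filter_upwards [h2, eventually_ge_atTop (1 : ℝ)] with T h hT
    simp only [id] at h
    rw [Real.norm_eq_abs, Real.norm_eq_abs, abs_of_nonneg (Real.log_nonneg hT), abs_of_nonneg (by positivity)] at h
    linarith
  filter_upwards [hev1, hev2, hE, hlog, hlog2, eventually_ge_atTop (16 : ℝ), Real.tendsto_log_atTop.eventually_ge_atTop 2,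
    Real.tendsto_log_atTop.eventually_ge_atTop H] with T hev1 hev2 hE hlog hLT hT hL2 hLH
  intro τ hτ N hN J a b hWT
  have hT0 : 0 < T := by linarith
  have hT1 : 1 ≤ T := by linarith
  have hN1 : (N : ℝ) ≤ T ^ θ₁ := hN.trans (Real.rpow_le_rpow_of_exponent_le hT1 hθa)
  have hN2 : (N : ℝ) ≤ T ^ θ₂ := hN.trans (Real.rpow_le_rpow_of_exponent_le hT1 hθb)
  have hN3 : (N : ℝ) ≤ T ^ θE := hN.trans (Real.rpow_le_rpow_of_exponent_le hT1 hθc)
  have hout : 12 * C * Real.log T * T ^ (1 / 40 : ℝ) ≤ ε / 32 * T := by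
    calc 12 * C * Real.log T * T ^ (1 / 40 : ℝ) ≤ ε / 32 * T ^ (39 / 40 : ℝ) * T ^ (1 / 40 : ℝ) := by gcongr
      _ = ε / 32 * (T ^ (39 / 40 : ℝ) * T ^ (1 / 40 : ℝ)) := by ring
      _ = ε / 32 * T := by
          rw [← Real.rpow_add hT0]
          norm_num
  have hW : ∀ b : ℕ → ℂ, |(∫ t in (T + 2 * Real.log T)..(2 * T - 2 * Real.log T), Nw T (H / Real.log T) t * ‖dp N b t‖ ^ 2) -
      (H / Real.pi) * (T * N2 N b)| ≤ 1 * (H / Real.pi) * (T * N2 N b) := fun b => (hev1 N hN1 b).2.2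
  have w1 := hev2 τ hτ N hN2 J a b hWT
  have hmz : ∀ s ∈ H370.Zf riemannZeta T (2 * T), (1 : ℝ) ≤ mz s := by
    intro s hs
    rw [H370.mem_Zf hF (by linarith)] at hs
    have := H370.Loc.mult_pos' hF (show 0 < s.im by linarith [hs.2.2.1]) hs.2.2.2.2
    exact_mod_cast this
  have h0 := fun i => samp_cmp hD hε hC hcnt hθ0 hθ40 hH hθH (by linarith) (by linarith) hLH (by linarith) hout hN (b i) hW (ω := wis τ d T)
      (fun s _ => by unfold wis; split_ifs <;> norm_num)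
      (fun s hs => by
        have := hmz s hs
        unfold wis
        split_ifs
        · exact this
        · linarith)
  -- the boundary terms
  have hrT : H / Real.log T ≤ 1 := by rw [div_le_one (by linarith)]; exact hLH
  have hr0 : 0 < H / Real.log T := by
    have : 0 < Real.log T := by linarith
    positivity
  have hVi : ∀ i, Continuous (fun t : ℝ => ‖dp N (b i) t‖ ^ 2) := fun i => ((dp_cont N (b i)).norm).pow 2
  have hVc : Continuous (WT N a b) := WT_cont N a b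
  have hxy : T + 2 * Real.log T ≤ 2 * T - 2 * Real.log T := by linarith
  have bdry : ∀ X : ℝ, |X| ≤ 1 →
      ∫ t in (T + 2 * Real.log T)..(2 * T - 2 * Real.log T), cz (t + X) (1 / Real.log T) (0 / Real.log T) * WT N a b t ≤
        C₂ * (T * VW N a b) := by
    intro X hX
    have hI : ∀ i, IntervalIntegrable (fun t => cz (t + X) (1 / Real.log T) (0 / Real.log T) * ‖dp N (b i) t‖ ^ 2) volume
        (T + 2 * Real.log T) (2 * T - 2 * Real.log T) := fun i =>
      Pool.Agent.Q222.UM.cz_int hZ X _ _ hxy (hVi i) (fun s => by positivity)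
    rw [int_WT N a b hI]
    refine sum_one N a b (fun i => intervalIntegral.integral_nonneg hxy fun t _ =>
      mul_nonneg (Pool.Agent.Q222.UM.cz_nonneg hZ _ _ _) (by positivity)) fun i => ?_
    have h1 := hE N hN3 (b i) X 0 (by linarith) le_rfl
    rw [mul_zero, neg_zero, Real.exp_zero, mul_one] at h1
    have h2 : ∫ t in (T + 2 * Real.log T)..(2 * T - 2 * Real.log T), cz (t + X) (1 / Real.log T) (0 / Real.log T) * ‖dp N (b i) t‖ ^ 2 ≤
        ∫ t in T..(2 * T), cz (t + X) (1 / Real.log T) (0 / Real.log T) * ‖dp N (b i) t‖ ^ 2 := by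
      refine intervalIntegral.integral_mono_interval (by linarith) (by linarith) (by linarith)
        (Eventually.of_forall fun t => ?_) ?_
      · exact mul_nonneg (Pool.Agent.Q222.UM.cz_nonneg hZ _ _ _) (by positivity)
      · exact Pool.Agent.Q222.UM.cz_int hZ X _ _ (by linarith) (hVi i) (fun s => by positivity)
    linarith
  have hb1 := bdry (H / Real.log T) (by rw [abs_of_pos hr0]; exact hrT)
  have hb2 := bdry (-(H / Real.log T)) (by rw [abs_neg, abs_of_pos hr0]; exact hrT)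
  -- the integrated pointwise inequality
  have iSi : ∀ i, IntervalIntegrable (fun t => (∑ s ∈ (ZT T).filter (fun s => |s.im - t| ≤ H / Real.log T), wis τ d T s) *
      ‖dp N (b i) t‖ ^ 2) volume (T + 2 * Real.log T) (2 * T - 2 * Real.log T) := fun i => ii_ws T _ (wis τ d T) (hVi i) _ _
  have iS : IntervalIntegrable (fun t => (∑ s ∈ (ZT T).filter (fun s => |s.im - t| ≤ H / Real.log T), wis τ d T s) * WT N a b t)
      volume (T + 2 * Real.log T) (2 * T - 2 * Real.log T) := ii_ws T _ (wis τ d T) hVc _ _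
  have iN : IntervalIntegrable (fun t => Nisw τ d T (H / Real.log T) t * WT N a b t)
      volume (T + 2 * Real.log T) (2 * T - 2 * Real.log T) := by
    obtain ⟨mS, B2, bS⟩ := Nisw_meas τ d T (H / Real.log T)
    exact ii_mul mS bS hVc _ _
  have ic1 := Pool.Agent.Q222.UM.cz_int hZ (H / Real.log T) (1 / Real.log T) (0 / Real.log T) hxy hVc hWT
  have ic2 := Pool.Agent.Q222.UM.cz_int hZ (-(H / Real.log T)) (1 / Real.log T) (0 / Real.log T) hxy hVc hWT
  have hint : ∫ t in (T + 2 * Real.log T)..(2 * T - 2 * Real.log T), Nisw τ d T (H / Real.log T) t * WT N a b t ≤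
      (∫ t in (T + 2 * Real.log T)..(2 * T - 2 * Real.log T),
        (∑ s ∈ (ZT T).filter (fun s => |s.im - t| ≤ H / Real.log T), wis τ d T s) * WT N a b t) +
      ((∫ t in (T + 2 * Real.log T)..(2 * T - 2 * Real.log T),
          cz (t + H / Real.log T) (1 / Real.log T) (0 / Real.log T) * WT N a b t) +
        ∫ t in (T + 2 * Real.log T)..(2 * T - 2 * Real.log T),
          cz (t + -(H / Real.log T)) (1 / Real.log T) (0 / Real.log T) * WT N a b t) := by
    rw [← intervalIntegral.integral_add ic1 ic2, ← intervalIntegral.integral_add iS (ic1.add ic2)]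
    refine intervalIntegral.integral_mono_on hxy iN (iS.add (ic1.add ic2)) fun t ht => ?_
    have h1 := Nisw_le (τ := τ) (d := d) (T := T) (H := H) (t := t) (by linarith) hL2 hH hLH hd1 ht.1 ht.2
    have h2 := mul_le_mul_of_nonneg_right h1 (hWT t)
    refine h2.trans (le_of_eq ?_)
    ring
  rw [int_WT N a b iSi] at hint
  -- summation of the comparison
  have hY : ∑ i, a i * ∑ s ∈ ZS τ d T, ‖dp N (b i) s.im‖ ^ 2 = ∑ s ∈ ZS τ d T, WT N a b s.im := by
    unfold WT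
    rw [Finset.sum_comm]
    exact Finset.sum_congr rfl fun i _ => Finset.mul_sum _ _ _
  have h1 : (∑ i, a i * ∫ t in (T + 2 * Real.log T)..(2 * T - 2 * Real.log T),
        (∑ s ∈ (ZT T).filter (fun s => |s.im - t| ≤ H / Real.log T), wis τ d T s) * ‖dp N (b i) t‖ ^ 2) -
      2 * (H / Real.log T) * ∑ s ∈ ZS τ d T, WT N a b s.im ≤
      2 * (H / Real.log T) * (ε / 16 * Real.log T * (T * VW N a b)) := by
    rw [← hY]
    have e1 : (∑ i, a i * ∫ t in (T + 2 * Real.log T)..(2 * T - 2 * Real.log T),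
        (∑ s ∈ (ZT T).filter (fun s => |s.im - t| ≤ H / Real.log T), wis τ d T s) * ‖dp N (b i) t‖ ^ 2) -
      2 * (H / Real.log T) * ∑ i, a i * ∑ s ∈ ZS τ d T, ‖dp N (b i) s.im‖ ^ 2 =
      ∑ i, a i * ((∫ t in (T + 2 * Real.log T)..(2 * T - 2 * Real.log T),
        (∑ s ∈ (ZT T).filter (fun s => |s.im - t| ≤ H / Real.log T), wis τ d T s) * ‖dp N (b i) t‖ ^ 2) -
        2 * (H / Real.log T) * ∑ s ∈ ZS τ d T, ‖dp N (b i) s.im‖ ^ 2) := by
      rw [Finset.mul_sum, ← Finset.sum_sub_distrib]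
      exact Finset.sum_congr rfl fun i _ => by ring
    have e2 : 2 * (H / Real.log T) * (ε / 16 * Real.log T * (T * VW N a b)) =
        ∑ i, |a i| * (2 * (H / Real.log T) * (ε / 16 * Real.log T * (T * N2 N (b i)))) := by
      unfold VW
      rw [Finset.mul_sum, Finset.mul_sum, Finset.mul_sum]
      exact Finset.sum_congr rfl fun i _ => by ring
    rw [e1, e2]
    refine (le_abs_self _).trans ((Finset.abs_sum_le_sum_abs _ _).trans (Finset.sum_le_sum fun i _ => ?_))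
    rw [abs_mul]
    refine mul_le_mul_of_nonneg_left ?_ (abs_nonneg _)
    have h2 := h0 i
    rw [sum_ZS τ d T (fun x => ‖dp N (b i) x‖ ^ 2)] at h2
    exact h2
  have hfin := fin_ar2 (cM := 1 + H370.cMTinv / 2) (M := T * MW N a b) (S := T * VW N a b) hε hH (by linarith)
    (mul_nonneg hT0.le (VW_nonneg N a b)) hC₂ hHc h1 (by
      refine le_trans (le_of_eq ?_) w1
      ring) hint hb1 hb2
  refine le_trans (le_of_eq ?_) hfin
  ring

/-- parity of the index, with any sign for each `T` -/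
theorem sams : ∀ ε : ℝ, 0 < ε → ∃ d θ : ℝ, 0 < d ∧ d ≤ 1 ∧ 0 < θ ∧ θ ≤ 1 / 40 ∧ ∀ᶠ T : ℝ in atTop, ∀ τ : ℝ, (τ = 1 ∨ τ = -1) → ∀ N : ℕ,
      (N : ℝ) ≤ T ^ θ → ∀ (J : ℕ) (a : Fin J → ℝ) (b : Fin J → ℕ → ℂ), (∀ t : ℝ, 0 ≤ WT N a b t) →
      Real.log T / (2 * Real.pi) * (T * ((2 - H370.cMTinv) / 2 * MW N a b - ε * VW N a b)) ≤ ∑ s ∈ ZS τ d T, WT N a b s.im :=
  t_SAMS Pool.Agent.Q84.UM.t_DPM b_EDB b_WIN (t_WINS Pool.Agent.Q247.UM.t_OMEX Pool.Agent.Q176.UM.t_QH Pool.Agent.Q222.UM.t_MV2 b_PAIR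
    Pool.Agent.Q222.UM.t_GRM b_ED b_ERR Pool.Agent.Q222.UM.t_MTW b_TAIL b_WIN)

open Pool.Agent.H4.LD in
/-- the isolated zeros with a given parity of the index (the parity may depend on `T`) -/
theorem sel_ZS (τ : ℝ → ℝ) (hτ : ∀ T, τ T = 1 ∨ τ T = -1) : Sel ((2 - H370.cMTinv) / 2) (fun d T => ZS (τ T) d T) := by
  refine ⟨fun d T => Finset.filter_subset _ _, fun ε hε => ?_⟩
  obtain ⟨d, θ, h1, h2, h3, -, h4⟩ := sams ε hε
  refine ⟨d, θ, h1, h2, h3, ?_⟩
  filter_upwards [h4] with T h4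
  exact h4 (τ T) (hτ T)

end

end Pool.Agent.H4.SG
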