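import Pool.Agent.H4.SG.Sam
import Pool.Graph.R_pool_sql_team_seeded_2aa45f1a.Q32.Idx.Asm

set_option autoImplicit false

/-! The parity of the index and the sign of the derivative of Hardy's function. -/

namespace Pool.Agent.H4.SG

open Filter Topology MeasureTheory Complex
open Pool.Agent.Q97.UM
open Pool.Agent.Q32.Idx (Z N N_split N_eq deriv_pos_iff simple_iff Z_zero_iff Z_hasDerivAt phase phase_ne)

noncomputable section

/-- the parity of the number of the zeros up to `x` -/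
def pN (x : ℝ) : ℝ := (-1) ^ N 0 x

lemma pN_or (x : ℝ) : pN x = 1 ∨ pN x = -1 := neg_one_pow_eq_or ℝ _

open Classical in
/-- the count of `ZT T` up to `x` -/
lemma cnl_eq {T x : ℝ} (hT : 1 ≤ T) (hx2 : x ≤ 2 * T - 1) :
    cnl ((ZT T).image H370.zz) (fun z => mz (1 / 2 + I * z)) x = N (T + 1) x := by
  have hF := H370.good_zeta
  unfold cnl
  rw [Finset.filter_image, Finset.sum_image (fun s _ s' _ h => H370.zz_inj h), N_eq]
  refine Finset.sum_congr ?_ fun s _ => ?_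
  · ext s
    rw [Finset.mem_filter, Pool.Agent.Q32.Idx.mem_Zf]
    unfold ZT
    rw [H370.mem_Zf hF (by linarith), H370.zz_re]
    constructor
    · rintro ⟨⟨a1, a2, a3, a4, a5⟩, a6⟩
      exact ⟨a5, a1, a2, a3, a6⟩
    · rintro ⟨a5, a1, a2, a3, a6⟩
      exact ⟨⟨a1, a2, a3, a6.trans hx2, a5⟩, a6⟩
  · have : (1 / 2 + I * H370.zz s : ℂ) = s := by
      have := H370.zz_spec s
      linear_combination -this
    simp only [this]
    rfl

lemma sgT_eq {T x : ℝ} (hT : 1 ≤ T) (hx1 : T + 1 ≤ x) (hx2 : x ≤ 2 * T - 1) : sgT T x = pN (T + 1) * pN x := by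
  classical
  have h1 := cnl_eq hT hx2
  unfold sgT eps
  have e : cnl (Finset.image H370.zz (ZT T)) (fun z => mz (1 / 2 + I * z)) x =
      cnl ((ZT T).image H370.zz) (fun z => mz (1 / 2 + I * z)) x := by congr!
  rw [e, h1]
  unfold pN
  rw [N_split (by linarith : (0 : ℝ) ≤ T + 1) hx1, pow_add]
  have h2 : ((-1 : ℝ) ^ N 0 (T + 1)) * (-1) ^ N 0 (T + 1) = 1 := by
    rw [← mul_pow]; norm_num
  rw [← mul_assoc, h2, one_mul]

/-- the parity which belongs to the sign `σ` of the derivative -/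
def tau (σ T : ℝ) : ℝ := -(σ * pN (T + 1))

lemma tau_or {σ : ℝ} (hσ : σ = 1 ∨ σ = -1) (T : ℝ) : tau σ T = 1 ∨ tau σ T = -1 := by
  unfold tau
  rcases hσ with h | h <;> rcases pN_or (T + 1) with h1 | h1 <;> rw [h, h1] <;> norm_num

/-- the sign of the derivative -/
lemma sign_iff {σ t : ℝ} (hσ : σ = 1 ∨ σ = -1) (ht : 0 < t) (hz : Z t = 0) (hd : deriv Z t ≠ 0) :
    0 < σ * deriv Z t ↔ pN t = -σ := by
  have h := deriv_pos_iff ht hz hd
  unfold pN
  rcases Nat.even_or_odd (N 0 t) with h1 | h1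
  · have h2 : ¬ 0 < deriv Z t := fun h3 => (Nat.not_even_iff_odd.2 (h.1 h3)) h1
    have h3 : deriv Z t < 0 := lt_of_le_of_ne (not_lt.1 h2) hd
    rw [h1.neg_one_pow]
    rcases hσ with h4 | h4 <;> rw [h4]
    · constructor
      · intro h5; linarith
      · intro h5; norm_num at h5
    · constructor
      · intro _; norm_num
      · intro _; linarith
  · have h2 : 0 < deriv Z t := h.2 h1
    rw [h1.neg_one_pow]
    rcases hσ with h4 | h4 <;> rw [h4]
    · constructor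
      · intro _; rfl
      · intro _; linarith
    · constructor
      · intro h5; linarith
      · intro h5; norm_num at h5

lemma sgT_tau {σ T x : ℝ} (hσ : σ = 1 ∨ σ = -1) (hT : 1 ≤ T) (hx1 : T + 1 ≤ x) (hx2 : x ≤ 2 * T - 1) :
    sgT T x = tau σ T ↔ pN x = -σ := by
  rw [sgT_eq hT hx1 hx2]
  unfold tau
  rcases hσ with h | h <;> rcases pN_or (T + 1) with h1 | h1 <;> rcases pN_or x with h2 | h2 <;> rw [h, h1, h2] <;> norm_num

/-- zeros of zeta on the line and zeros of `Z` -/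
lemma line_of {s : ℂ} (h : s.re = 1 / 2) : (1 / 2 + I * (s.im : ℂ) : ℂ) = s := Complex.ext (by simp [h]) (by simp)

lemma Z_of {T : ℝ} {s : ℂ} (hT : 1 ≤ T) (hs : s ∈ H370.Zf riemannZeta T (2 * T)) (hre : s.re = 1 / 2) (hm : mz s = 1) :
    Z s.im = 0 ∧ deriv Z s.im ≠ 0 := by
  have hF := H370.good_zeta
  rw [H370.mem_Zf hF (by linarith)] at hs
  have h1 : Z s.im = 0 := by
    rw [Z_zero_iff, line_of hre]
    exact hs.2.2.2.2
  refine ⟨h1, (simple_iff (by linarith [hs.2.2.1]) h1).2 ?_⟩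
  rw [line_of hre]
  exact hm

open Classical in
/-- the selected zeros -/
lemma mem_ZS {σ d T : ℝ} (hσ : σ = 1 ∨ σ = -1) (hT : 1 ≤ T) {s : ℂ} :
    s ∈ ZS (tau σ T) d T ↔ s ∈ ZI d T ∧ s ∈ ZT T ∧ 0 < σ * deriv Z s.im := by
  have hF := H370.good_zeta
  unfold ZS
  rw [Finset.mem_filter]
  refine and_congr_right fun h1 => and_congr_right fun h2 => ?_
  have h3 : T + 1 < s.im ∧ s.im ≤ 2 * T - 1 := by
    unfold ZT at h2
    rw [H370.mem_Zf hF (by linarith)] at h2
    exact ⟨h2.2.2.1, h2.2.2.2.1⟩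
  unfold ZI at h1
  rw [Finset.mem_filter] at h1
  obtain ⟨h4, h5⟩ := Z_of hT h1.1 h1.2.1 h1.2.2.1
  rw [sgT_tau hσ hT h3.1.le h3.2, sign_iff hσ (by linarith) h4 h5]

/-- the modulus of the derivative -/
lemma abs_deriv_Z {t : ℝ} (hz : Z t = 0) : |deriv Z t| = ‖deriv riemannZeta (1 / 2 + I * t)‖ := by
  have hD := (Z_hasDerivAt t ((Z_zero_iff t).1 hz))
  rw [hD.1.deriv]
  have h1 : ‖((((phase t * (deriv riemannZeta (1 / 2 + I * t) * I)).re : ℝ)) : ℂ)‖ = ‖phase t * (deriv riemannZeta (1 / 2 + I * t) * I)‖ := by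
    rw [hD.2]
  rw [Complex.norm_real, Real.norm_eq_abs] at h1
  rw [h1, norm_mul, norm_mul, Complex.norm_I, mul_one]
  have h2 : ‖phase t‖ = 1 := by
    have h3 := Pool.Agent.Q32.Idx.phase_eq t
    have h4 : Gammaℝ (1 / 2 + t * I) ≠ 0 := by
      intro h
      rw [h] at h3
      simp only [norm_zero, Complex.ofReal_zero, div_zero] at h3
      exact phase_ne t h3
    rw [h3, norm_div, Complex.norm_real, norm_norm]
    exact div_self (norm_ne_zero_iff.2 h4)
  rw [h2, one_mul]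

end

end Pool.Agent.H4.SG
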